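import Pool.Agent.SZT.Defs

/-! Twisted cosets of the Suzuki groups: the centraliser of `S(1,0) phi` (helper27). -/

set_option autoImplicit false

namespace Pool.Agent.SZT

open Pool.Agent.SZQ Pool.Agent.SZQ.Inst Pool.Agent.Helper8.SUZ

section
variable {F : Type} [Field F] [Finite F] [Tits F] {σ : F ≃+* F}
  {φ : Sz (th : F →+* F) ≃* Sz (th : F →+* F)}

/-- the four candidates -/
private def cand (p : Bool × Bool) : Sz (th : F →+* F) :=
  sS (if p.1 then 1 else 0) (if p.2 then 1 else 0)

/-- module CX -/
theorem cx (hφ : FAut σ φ) (h2 : F2 σ) (h4 : F2 (σ.trans σ)) :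
    Nat.card {k : Sz (th : F →+* F) // k * sS 1 0 * (φ k)⁻¹ = sS 1 0} ≤ 4 := by
  obtain ⟨hs, hm, hw⟩ := hφ
  have two : (2 : F) = 0 := two_zero
  have key : ∀ k : Sz (th : F →+* F), k * sS 1 0 * (φ k)⁻¹ = sS 1 0 →
      ∃ p : Bool × Bool, k = cand p := by
    intro k hk
    have hk' : k * sS 1 0 = sS 1 0 * φ k := by
      rw [mul_inv_eq_iff_eq_mul] at hk
      exact hk
    rcases s_form k with ⟨a, b, m, rfl⟩ | ⟨a, b, m, c, d, rfl⟩
    · have e1 : sS a b * sM m * sS 1 0 =
          sS (a + 1 / th (m : F)) (b + 0 / (th (m : F) * (m : F) ^ 2) + th a * (1 / th (m : F))) *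
            sM m := by
        rw [← sS_mul, ← sM_conj]
        group
      have e2 : sS 1 0 * φ (sS a b * sM m) =
          sS (1 + σ a) (0 + σ b + th 1 * σ a) * sM (Units.map (σ : F →* F) m) := by
        rw [map_mul, hs, hm, ← sS_mul, mul_assoc]
      rw [e1, e2] at hk'
      obtain ⟨h5, h6, h7⟩ := s_small hk'
      have hm1 : m = 1 := by
        have h8 : σ (m : F) = (m : F) := by
          have := congrArg Units.val h7
          exact this.symm
        rcases h2 _ h8 with h9 | h9
        · exact absurd h9 m.ne_zero
        · exact Units.ext h9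
      subst hm1
      rw [Units.val_one, map_one] at h5 h6
      have ha : σ a = a := by linear_combination -h5
      have ha2 := h2 a ha
      have hta : th a = a := by
        rcases ha2 with rfl | rfl
        · exact map_zero _
        · exact map_one _
      rw [ha, hta] at h6
      have hb : σ b = b := by linear_combination -h6
      have hb2 := h2 b hb
      rw [sM_one, mul_one]
      rcases ha2 with rfl | rfl
      · rcases hb2 with rfl | rfl
        · exact ⟨(false, false), rfl⟩
        · exact ⟨(false, true), rfl⟩
      · rcases hb2 with rfl | rfl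
        · exact ⟨(true, false), rfl⟩
        · exact ⟨(true, true), rfl⟩
    · exfalso
      have e1 : sS a b * sM m * sW * sS c d * sS 1 0 =
          sS a b * sM m * sW * sS (c + 1) (d + 0 + th c * 1) := by
        rw [← sS_mul, mul_assoc]
      have e2 : sS 1 0 * φ (sS a b * sM m * sW * sS c d) =
          sS (1 + σ a) (0 + σ b + th 1 * σ a) * sM (Units.map (σ : F →* F) m) * sW *
            sS (σ c) (σ d) := by
        rw [map_mul, map_mul, map_mul, hs, hs, hm, hw, ← sS_mul]
        group
      rw [e1, e2] at hk'
      obtain ⟨h5, -, -, -, -⟩ := s_big hk'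
      have h6 : σ a = a + 1 := by linear_combination -h5 - two
      have h7 : σ (σ a) = a := by
        rw [h6, map_add, map_one, h6]
        linear_combination two
      have h8 : σ a = a := by
        rcases h4 a h7 with rfl | rfl
        · exact map_zero _
        · exact map_one _
      rw [h8] at h6
      exact one_ne_zero (α := F) (by linear_combination -h6)
  have h8 : Nat.card {k : Sz (th : F →+* F) // k * sS 1 0 * (φ k)⁻¹ = sS 1 0} ≤
      Nat.card (Bool × Bool) := by
    choose f hf using key
    refine Nat.card_le_card_of_injective (fun k => f k.1 k.2) ?_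
    intro k k' h
    apply Subtype.ext
    rw [hf k.1 k.2, hf k'.1 k'.2]
    exact congrArg cand h
  refine h8.trans ?_
  rw [Nat.card_eq_fintype_card]
  decide

end

end Pool.Agent.SZT
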