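import Pool.Agent.SZT.Defs

/-! Twisted centralisers, the case of a fixed point (SZT module CZ1, helper64). -/

set_option autoImplicit false

namespace Pool.Agent.SZT

open Pool.Agent.SZQ Pool.Agent.SZQ.Inst Pool.Agent.Helper8.SUZ

private theorem cz_range {G T : Type} [Finite T] (f : T → G) (p : G → Prop)
    (h : ∀ k, p k → ∃ t, f t = k) : Nat.card {k // p k} ≤ Nat.card T := by
  choose g hg using h
  refine Nat.card_le_card_of_injective (fun k : {k // p k} => g k.1 k.2) ?_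
  intro a b hab
  apply Subtype.ext
  calc a.1 = f (g a.1 a.2) := (hg _ _).symm
    _ = f (g b.1 b.2) := congrArg f hab
    _ = b.1 := hg _ _

private theorem cz_conj {G : Type} [Group G] [Finite G] (φ : G ≃* G) (z g : G) :
    Nat.card {k : G // k * z * (φ k)⁻¹ = z} ≤
      Nat.card {k : G // k * (g⁻¹ * z * φ g) * (φ k)⁻¹ = g⁻¹ * z * φ g} := by
  have key : ∀ k : G, k * z * (φ k)⁻¹ = z →
      g⁻¹ * k * g * (g⁻¹ * z * φ g) * (φ (g⁻¹ * k * g))⁻¹ = g⁻¹ * z * φ g := by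
    intro k h
    rw [map_mul, map_mul, map_inv]
    calc g⁻¹ * k * g * (g⁻¹ * z * φ g) * ((φ g)⁻¹ * φ k * φ g)⁻¹
        = g⁻¹ * (k * z * (φ k)⁻¹) * φ g := by group
      _ = g⁻¹ * z * φ g := by rw [h]
  refine Nat.card_le_card_of_injective (fun k => ⟨g⁻¹ * k.1 * g, key k.1 k.2⟩) ?_
  intro a b hab
  have h := congrArg Subtype.val hab
  exact Subtype.ext (mul_left_cancel (mul_right_cancel h))

section
variable {F : Type} [Field F] [Finite F] [Tits F] {σ : F ≃+* F}
  {φ : Sz (th : F →+* F) ≃* Sz (th : F →+* F)}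

/-- the elements of `F_2` -/
private def bf (F : Type) [Field F] (b : Bool) : F := if b then 1 else 0

omit [Finite F] [Tits F] in
private theorem bf_ex (h2 : F2 σ) {x : F} (h : σ x = x) : ∃ b : Bool, bf F b = x := by
  rcases h2 x h with h | h
  · exact ⟨false, by rw [h]; rfl⟩
  · exact ⟨true, by rw [h]; rfl⟩

omit [Finite F] [Tits F] in
private theorem un_one (h2 : F2 σ) {m : Fˣ} (h : Units.map (σ : F →* F) m = m) : m = 1 := by
  have h1 : σ (m : F) = m := congrArg Units.val h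
  rcases h2 _ h1 with h3 | h3
  · exact absurd h3 m.ne_zero
  · exact Units.ext h3

private theorem cz_main (hφ : FAut σ φ) (h2 : F2 σ) (a b : F) :
    Nat.card {k : Sz (th : F →+* F) // k * sS a b * (φ k)⁻¹ = sS a b} ≤ 20 := by
  classical
  obtain ⟨hS, hM, hW⟩ := hφ
  by_cases hv : ∃ c d : F, (sS c d)⁻¹ * sS a b * φ (sS c d) = 1
  · obtain ⟨c, d, hv⟩ := hv
    refine (cz_conj φ (sS a b) (sS c d)).trans ?_
    rw [hv]
    refine (cz_range (T := (Bool × Bool) ⊕ (Bool × Bool × Bool × Bool))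
      (Sum.elim (fun p => sS (bf F p.1) (bf F p.2))
        (fun p => sS (bf F p.1) (bf F p.2.1) * sM 1 * sW * sS (bf F p.2.2.1) (bf F p.2.2.2)))
      _ ?_).trans (by rw [Nat.card_eq_fintype_card]; simp)
    intro k hk
    rw [mul_one, mul_inv_eq_one] at hk
    rcases s_form k with ⟨c1, d1, m, rfl⟩ | ⟨c1, d1, m, c2, d2, rfl⟩
    · rw [map_mul, hS, hM] at hk
      obtain ⟨e1, e2, e3⟩ := s_small hk
      obtain ⟨b1, hb1⟩ := bf_ex h2 e1.symm
      obtain ⟨b2, hb2⟩ := bf_ex h2 e2.symm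
      refine ⟨Sum.inl (b1, b2), ?_⟩
      rw [Sum.elim_inl, hb1, hb2, un_one h2 e3.symm, sM_one, mul_one]
    · rw [map_mul, map_mul, map_mul, hS, hM, hW, hS] at hk
      obtain ⟨e1, e2, e3, e4, e5⟩ := s_big hk
      obtain ⟨b1, hb1⟩ := bf_ex h2 e1.symm
      obtain ⟨b2, hb2⟩ := bf_ex h2 e2.symm
      obtain ⟨b3, hb3⟩ := bf_ex h2 e4.symm
      obtain ⟨b4, hb4⟩ := bf_ex h2 e5.symm
      refine ⟨Sum.inr (b1, b2, b3, b4), ?_⟩
      rw [Sum.elim_inr, hb1, hb2, hb3, hb4, un_one h2 e3.symm]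
  · -- the equations
    have heq : ∀ c d : F, sS c d * sS a b * (φ (sS c d))⁻¹ = sS a b →
        σ c = c ∧ d + th c * a = σ d + th a * c := by
      intro c d h
      rw [mul_inv_eq_iff_eq_mul, hS, sS_mul, sS_mul] at h
      obtain ⟨e1, e2⟩ := sS_inj h
      have e3 : σ c = c := by linear_combination -e1
      refine ⟨e3, ?_⟩
      rw [e3] at e2
      linear_combination e2
    have hform : ∀ k : Sz (th : F →+* F), k * sS a b * (φ k)⁻¹ = sS a b → ∃ c d, k = sS c d := by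
      intro k hk
      rw [mul_inv_eq_iff_eq_mul] at hk
      rcases s_form k with ⟨c1, d1, m, rfl⟩ | ⟨c1, d1, m, c2, d2, rfl⟩
      · rw [map_mul, hS, hM] at hk
        have h1 : sS c1 d1 * sM m * sS a b =
            sS c1 d1 * (sM m * sS a b * (sM m)⁻¹) * sM m := by group
        rw [h1, sM_conj, sS_mul, ← mul_assoc, sS_mul] at hk
        obtain ⟨-, -, e3⟩ := s_small hk
        exact ⟨c1, d1, by rw [un_one h2 e3.symm, sM_one, mul_one]⟩
      · exfalso
        rw [map_mul, map_mul, map_mul, hS, hM, hW, hS] at hk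
        have h1 : sS c1 d1 * sM m * sW * sS c2 d2 * sS a b =
            sS c1 d1 * sM m * sW * (sS c2 d2 * sS a b) := by group
        have h3 : sS a b * (sS (σ c1) (σ d1) * sM (Units.map (σ : F →* F) m) * sW *
            sS (σ c2) (σ d2)) = (sS a b * sS (σ c1) (σ d1)) * sM (Units.map (σ : F →* F) m) * sW *
            sS (σ c2) (σ d2) := by group
        rw [h1, h3, sS_mul, sS_mul] at hk
        obtain ⟨e1, e2, -⟩ := s_big hk
        apply hv
        refine ⟨c1, d1, ?_⟩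
        rw [mul_assoc, inv_mul_eq_one, hS, sS_mul, ← e1, ← e2]
    let d0 : Bool → F := fun β =>
      if h : ∃ d, sS (bf F β) d * sS a b * (φ (sS (bf F β) d))⁻¹ = sS a b then h.choose else 0
    refine (cz_range (T := Bool × Bool) (fun p => sS (bf F p.1) (d0 p.1 + bf F p.2))
      _ ?_).trans (by rw [Nat.card_eq_fintype_card]; simp)
    intro k hk
    obtain ⟨c, d, rfl⟩ := hform k hk
    obtain ⟨e1, e2⟩ := heq c d hk
    obtain ⟨β, hβ⟩ := bf_ex h2 e1
    have hex : ∃ d, sS (bf F β) d * sS a b * (φ (sS (bf F β) d))⁻¹ = sS a b :=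
      ⟨d, by rw [hβ]; exact hk⟩
    have hd0 : d0 β = hex.choose := dif_pos hex
    obtain ⟨-, e3⟩ := heq _ _ hex.choose_spec
    rw [← hd0, hβ] at e3
    have e4 : σ (d - d0 β) = d - d0 β := by
      rw [map_sub]
      linear_combination e3 - e2
    obtain ⟨ε, hε⟩ := bf_ex h2 e4
    refine ⟨(β, ε), ?_⟩
    simp only [hβ, hε]
    rw [add_sub_cancel]

/-- module CZ1 -/
theorem cz1 (hF : 8 ≤ Nat.card F) (hφ : FAut σ φ) (h2 : F2 σ) (z : Sz (th : F →+* F))
    (hz : ∃ (g : Sz (th : F →+* F)) (a b : F) (m : Fˣ), g⁻¹ * z * φ g = sS a b * sM m) :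
    Nat.card {k : Sz (th : F →+* F) // k * z * (φ k)⁻¹ = z} ≤ 20 := by
  obtain ⟨g, a, b, m, hg⟩ := hz
  refine (cz_conj φ z g).trans ?_
  rw [hg]
  have hinj : Function.Injective fun t : Fˣ => t⁻¹ * Units.map (σ : F →* F) t := by
    intro t t' h
    have h1 : t⁻¹ * Units.map (σ : F →* F) t = t'⁻¹ * Units.map (σ : F →* F) t' := h
    have h3 : Units.map (σ : F →* F) (t' * t⁻¹) = t' * t⁻¹ := by
      rw [map_mul, map_inv]
      have h4 : Units.map (σ : F →* F) t' = t' * (t⁻¹ * Units.map (σ : F →* F) t) := by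
        rw [h1, mul_inv_cancel_left]
      rw [h4]
      group
    exact (mul_inv_eq_one.1 (un_one h2 h3)).symm
  obtain ⟨s, hs⟩ := (Finite.injective_iff_surjective.1 hinj) m⁻¹
  have hs' : s⁻¹ * Units.map (σ : F →* F) s = m⁻¹ := hs
  refine (cz_conj φ (sS a b * sM m) (sM s)).trans ?_
  have h1 : (sM s)⁻¹ * (sS a b * sM m) * φ (sM s) =
      sS (a / th ((s⁻¹ : Fˣ) : F)) (b / (th ((s⁻¹ : Fˣ) : F) * ((s⁻¹ : Fˣ) : F) ^ 2)) := by
    rw [hφ.2.1, ← sM_conj, sM_inv]
    have h3 : sM s⁻¹ * (sS a b * sM m) * sM (Units.map (σ : F →* F) s) =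
        sM s⁻¹ * sS a b * (sM m * sM (Units.map (σ : F →* F) s)) := by group
    rw [h3, sM_mul]
    congr 1
    rw [sM_inv, inv_inv]
    congr 1
    have h4 : Units.map (σ : F →* F) s = s * m⁻¹ := by rw [← hs', mul_inv_cancel_left]
    rw [h4, mul_left_comm, mul_inv_cancel, mul_one]
  rw [h1]
  exact cz_main hφ h2 _ _

end

end Pool.Agent.SZT
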