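import Pool.Agent.SZT.Defs
import Pool.Agent.SZT.CZ1

/-! SZT/CZ2: twisted centralisers without fixed points (helper87). -/

set_option autoImplicit false

namespace Pool.Agent.SZT

open Pool.Agent.SZQ Pool.Agent.SZQ.Inst Pool.Agent.Helper8.SUZ

/-- groups of order 65 are abelian -/
theorem comm65 {H : Type*} [Group H] [Finite H] (hH : Nat.card H = 65) (a b : H) :
    a * b = b * a := by
  haveI : Fact (Nat.Prime 13) := ⟨by norm_num⟩
  haveI : Fact (Nat.Prime 5) := ⟨by norm_num⟩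
  obtain ⟨K, hK⟩ := Sylow.exists_subgroup_card_pow_prime (G := H) 13 (n := 1) (by
    rw [hH]
    norm_num)
  rw [pow_one] at hK
  have hidx : K.index = 5 := by
    have h1 := K.card_mul_index
    rw [hK, hH] at h1
    omega
  have hN : K.Normal := by
    apply Subgroup.normal_of_index_eq_minFac_card
    rw [hidx, hH]
    norm_num
  haveI : IsCyclic K := isCyclic_of_prime_card hK
  have hZ : K ≤ Subgroup.center H := by
    let f : H →* MulAut K := MulAut.conjNormal
    have h1 : Nat.card f.range ∣ 65 := by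
      rw [← hH]
      exact Subgroup.card_range_dvd f
    have h2 : Nat.card f.range ∣ 12 := by
      have h3 := Subgroup.card_subgroup_dvd_card f.range
      rw [IsCyclic.card_mulAut, hK] at h3
      have h4 : Nat.totient 13 = 12 := by decide
      rwa [h4] at h3
    have h5 : Nat.card f.range = 1 := by
      have h6 := Nat.dvd_gcd h1 h2
      have h7 : Nat.gcd 65 12 = 1 := by decide
      rw [h7] at h6
      exact Nat.dvd_one.1 h6
    have h8 : f.range = ⊥ := Subgroup.card_eq_one.1 h5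
    intro x hx
    rw [Subgroup.mem_center_iff]
    intro g
    have h9 : f g = 1 := by
      have : f g ∈ f.range := ⟨g, rfl⟩
      rw [h8] at this
      exact Subgroup.mem_bot.1 this
    have h10 : ((MulAut.conjNormal g : MulAut K) ⟨x, hx⟩ : H) = x := by
      change ((f g) ⟨x, hx⟩ : H) = x
      rw [h9]
      rfl
    rw [MulAut.conjNormal_apply] at h10
    exact mul_inv_eq_iff_eq_mul.1 h10
  haveI : IsCyclic (H ⧸ K) := isCyclic_of_prime_card (p := 5) hidx
  refine commutative_of_cyclic_center_quotient (QuotientGroup.mk' K) ?_ a b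
  rw [QuotientGroup.ker_mk']
  exact hZ

section
variable {F : Type} [Field F] [Tits F]

theorem sW_sM (m : Fˣ) : sW * sM m = sM m⁻¹ * (sW : Sz (th : F →+* F)) :=
  Subtype.ext (gW_gM m)

theorem sW_sq : (sW : Sz (th : F →+* F)) * sW = 1 := Subtype.ext gW_sq

/-- moving the torus to the right -/
theorem sS_sM (m : Fˣ) (a b : F) : ∃ c d, sS a b * sM m = sM m * (sS c d : Sz (th : F →+* F)) := by
  refine ⟨a / th ((m⁻¹ : Fˣ) : F), b / (th ((m⁻¹ : Fˣ) : F) * ((m⁻¹ : Fˣ) : F) ^ 2), ?_⟩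
  rw [← sM_conj, ← sM_inv]
  group

/-- moving the torus to the left -/
theorem sM_sS (m : Fˣ) (a b : F) : ∃ c d, sM m * sS a b = sS c d * (sM m : Sz (th : F →+* F)) :=
  ⟨_, _, mul_inv_eq_iff_eq_mul.1 (sM_conj m a b)⟩

/-- the Borel subgroup -/
def BB (F : Type) [Field F] [Tits F] : Subgroup (Sz (th : F →+* F)) where
  carrier := {g | ∃ a b m, g = sS a b * sM m}
  mul_mem' := by
    rintro _ _ ⟨a, b, m, rfl⟩ ⟨c, d, k, rfl⟩
    obtain ⟨c', d', h⟩ := sM_sS (F := F) m c d
    refine ⟨a + c', b + d' + th a * c', m * k, ?_⟩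
    calc sS a b * sM m * (sS c d * sM k) = sS a b * (sM m * sS c d) * sM k := by group
      _ = (sS a b * sS c' d') * (sM m * sM k) := by rw [h]; group
      _ = _ := by rw [sS_mul, sM_mul]
  one_mem' := ⟨0, 0, 1, by rw [sS_zero, sM_one, one_mul]⟩
  inv_mem' := by
    rintro _ ⟨a, b, m, rfl⟩
    obtain ⟨c, d, h⟩ := sM_sS (F := F) m⁻¹ a (b + th a * a)
    refine ⟨c, d, m⁻¹, ?_⟩
    rw [mul_inv_rev, sS_inv, sM_inv, h]

theorem mem_BB {g : Sz (th : F →+* F)} : g ∈ BB F ↔ ∃ a b m, g = sS a b * sM m := Iff.rfl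

theorem sS_mem (a b : F) : sS a b ∈ BB F := ⟨a, b, 1, by rw [sM_one, mul_one]⟩

theorem sM_mem (m : Fˣ) : sM m ∈ BB F := ⟨0, 0, m, by rw [sS_zero, one_mul]⟩

/-- the number of points -/
theorem card_quot [Finite F] : Nat.card (Sz (th : F →+* F) ⧸ BB F) = Nat.card F ^ 2 + 1 := by
  have e : Option (F × F) ≃ (Sz (th : F →+* F) ⧸ BB F) := by
    refine Equiv.ofBijective (fun o => match o with
      | none => ((1 : Sz (th : F →+* F)) : Sz (th : F →+* F) ⧸ BB F)
      | some p => ((sS p.1 p.2 * sW : Sz (th : F →+* F)) : Sz (th : F →+* F) ⧸ BB F)) ⟨?_, ?_⟩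
    · have key : ∀ a b : F, sS a b * (sW : Sz (th : F →+* F)) ∉ BB F := by
        rintro a b ⟨a', b', m', h⟩
        refine s_ne a' b' a b 0 0 m' 1 ?_
        rw [← h, sS_zero, sM_one]
        group
      rintro (_ | ⟨a, b⟩) (_ | ⟨c, d⟩) h
      · rfl
      · exfalso
        have h1 := QuotientGroup.eq.1 h
        rw [inv_one, one_mul] at h1
        exact key c d h1
      · exfalso
        have h1 := QuotientGroup.eq.1 h.symm
        rw [inv_one, one_mul] at h1
        exact key a b h1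
      · obtain ⟨x, y, m, h1⟩ := QuotientGroup.eq.1 h
        have h2 : sS c d * sW = sS a b * sW * (sS x y * (sM m : Sz (th : F →+* F))) := by
          rw [← h1]
          group
        obtain ⟨x', y', h3⟩ := sS_sM (F := F) m x y
        have h4 : sS c d * sM 1 * sW * sS 0 0 = sS a b * sM m⁻¹ * sW *
            (sS x' y' : Sz (th : F →+* F)) := by
          rw [sM_one, sS_zero, mul_one, mul_one, h2, h3]
          calc sS a b * sW * (sM m * sS x' y') = sS a b * (sW * sM m) * sS x' y' := by group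
            _ = _ := by rw [sW_sM]; group
        obtain ⟨h5, h6, -⟩ := s_big h4
        rw [h5, h6]
    · intro y
      induction y using QuotientGroup.induction_on with
      | H g =>
        rcases s_form g with ⟨a, b, m, rfl⟩ | ⟨a, b, m, c, d, rfl⟩
        · refine ⟨none, QuotientGroup.eq.2 ?_⟩
          rw [inv_one, one_mul]
          exact ⟨a, b, m, rfl⟩
        · refine ⟨some (a, b), QuotientGroup.eq.2 ?_⟩
          have h1 : (sS a b * sW)⁻¹ * (sS a b * sM m * sW * sS c d) =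
              (sM m⁻¹ * sS c d : Sz (th : F →+* F)) := by
            have h2 : sW * sM m * sW = (sM m⁻¹ : Sz (th : F →+* F)) := by
              rw [sW_sM, mul_assoc, sW_sq, mul_one]
            have h3 : (sW : Sz (th : F →+* F))⁻¹ = sW := inv_eq_of_mul_eq_one_left sW_sq
            rw [mul_inv_rev, h3, ← h2]
            group
          change (sS a b * sW)⁻¹ * (sS a b * sM m * sW * sS c d) ∈ BB F
          rw [h1]
          exact (BB F).mul_mem (sM_mem _) (sS_mem _ _)
  rw [← Nat.card_congr e, Finite.card_option, Nat.card_prod, sq]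

variable {σ : F ≃+* F} {φ : Sz (th : F →+* F) ≃* Sz (th : F →+* F)}

/-- elements commuting with the twisted element fix no point -/
theorem cz2_free (hφ : FAut σ φ) (h4 : F2 (σ.trans σ)) (z : Sz (th : F →+* F))
    (hz : ∀ (g : Sz (th : F →+* F)) (a b : F) (m : Fˣ), g⁻¹ * z * φ g ≠ sS a b * sM m)
    (k : Sz (th : F →+* F)) (hk : k * z * (φ k)⁻¹ = z) (g : Sz (th : F →+* F))
    (hg : g⁻¹ * k * g ∈ BB F) : k = 1 := by
  have hk' : k * z = z * φ k := mul_inv_eq_iff_eq_mul.1 hk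
  obtain ⟨hφS, hφM, hφW⟩ := hφ
  rcases s_form (g⁻¹ * z * φ g) with ⟨a', b', m', h⟩ | ⟨a', b', m', c', d', h⟩
  · exact absurd h (hz g a' b' m')
  obtain ⟨v, hv⟩ : ∃ v : Sz (th : F →+* F), v = sS a' b' := ⟨_, rfl⟩
  have hk2 : (g * v)⁻¹ * k * (g * v) ∈ BB F := by
    have h1 : (g * v)⁻¹ * k * (g * v) = v⁻¹ * (g⁻¹ * k * g) * v := by group
    rw [h1, hv]
    exact (BB F).mul_mem ((BB F).mul_mem ((BB F).inv_mem (sS_mem _ _)) hg) (sS_mem _ _)
  obtain ⟨α, β, m, hα⟩ := hk2
  have hz2 : (g * v)⁻¹ * z * φ (g * v) = sM m' * sW * (sS c' d' * sS (σ a') (σ b')) := by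
    have h1 : (g * v)⁻¹ * z * φ (g * v) = v⁻¹ * (g⁻¹ * z * φ g) * φ v := by
      rw [map_mul]
      group
    rw [h1, h, hv, hφS]
    group
  have hrel : ((g * v)⁻¹ * k * (g * v)) * ((g * v)⁻¹ * z * φ (g * v)) =
      ((g * v)⁻¹ * z * φ (g * v)) * φ ((g * v)⁻¹ * k * (g * v)) := by
    have h1 : ((g * v)⁻¹ * k * (g * v)) * ((g * v)⁻¹ * z * φ (g * v)) =
        (g * v)⁻¹ * (k * z) * φ (g * v) := by group
    rw [h1, hk', map_mul φ ((g * v)⁻¹ * k), map_mul φ (g * v)⁻¹, map_inv]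
    group
  rw [hα, hz2, map_mul, hφS, hφM, sS_mul] at hrel
  obtain ⟨μ, hμ⟩ : ∃ μ : Fˣ, μ = Units.map (σ : F →* F) m := ⟨_, rfl⟩
  rw [← hμ] at hrel
  obtain ⟨x, hx⟩ : ∃ x : F, x = c' + σ a' := ⟨_, rfl⟩
  obtain ⟨y, hy⟩ : ∃ y : F, y = d' + σ b' + th c' * σ a' := ⟨_, rfl⟩
  rw [← hx, ← hy] at hrel
  obtain ⟨x', y', hxy⟩ := sS_sM (F := F) μ (x + σ α) (y + σ β + th x * σ α)
  have hbig : sS α β * sM (m * m') * sW * sS x y =
      sS 0 0 * sM (m' * μ⁻¹) * sW * (sS x' y' : Sz (th : F →+* F)) := by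
    calc sS α β * sM (m * m') * sW * sS x y = sS α β * sM m * (sM m' * sW * sS x y) := by
          rw [← sM_mul]
          group
      _ = sM m' * sW * sS x y * (sS (σ α) (σ β) * sM μ) := hrel
      _ = sM m' * sW * (sS x y * sS (σ α) (σ β) * sM μ) := by group
      _ = sM m' * (sW * sM μ) * sS x' y' := by
          rw [sS_mul, hxy]
          group
      _ = sM m' * (sM μ⁻¹ * sW) * sS x' y' := by rw [sW_sM]
      _ = _ := by
          rw [sS_zero, ← sM_mul]
          group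
  obtain ⟨h5, h6, h7, -⟩ := s_big hbig
  have h8 : m = μ⁻¹ := by
    rw [mul_comm m' μ⁻¹] at h7
    exact mul_right_cancel h7
  have h9 : (m : F) * σ (m : F) = 1 := by
    have h10 : m * μ = 1 := by
      rw [h8, inv_mul_cancel]
    have h11 := congrArg Units.val h10
    rw [Units.val_mul, hμ] at h11
    exact h11
  have h10 : σ (m : F) * σ (σ (m : F)) = 1 := by
    rw [← map_mul, h9, map_one]
  have hm0 : (m : F) ≠ 0 := m.ne_zero
  have hσm : σ (m : F) ≠ 0 := by
    intro h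
    rw [h, mul_zero] at h9
    exact zero_ne_one h9
  have h11 : (σ.trans σ) (m : F) = m := by
    change σ (σ (m : F)) = m
    apply mul_left_cancel₀ hσm
    rw [h10, mul_comm, h9]
  have h12 : m = 1 := by
    rcases h4 _ h11 with h | h
    · exact absurd h hm0
    · exact Units.ext h
  rw [h5, h6, h12, sS_zero, sM_one, one_mul] at hα
  have h13 : k = (g * v) * ((g * v)⁻¹ * k * (g * v)) * (g * v)⁻¹ := by group
  rw [h13, hα]
  group

/-- the twisted centraliser as a subgroup -/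
def CC (φ : Sz (th : F →+* F) ≃* Sz (th : F →+* F)) (z : Sz (th : F →+* F)) :
    Subgroup (Sz (th : F →+* F)) where
  carrier := {k | k * z * (φ k)⁻¹ = z}
  mul_mem' := by
    intro k l hk hl
    have h1 : l * z * (φ l)⁻¹ = z := hl
    have h2 : k * z * (φ k)⁻¹ = z := hk
    change k * l * z * (φ (k * l))⁻¹ = z
    rw [map_mul]
    calc k * l * z * (φ k * φ l)⁻¹ = k * (l * z * (φ l)⁻¹) * (φ k)⁻¹ := by group
      _ = z := by rw [h1, h2]
  one_mem' := by
    change 1 * z * (φ 1)⁻¹ = z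
    rw [map_one]
    group
  inv_mem' := by
    intro k hk
    have h2 : k * z * (φ k)⁻¹ = z := hk
    change k⁻¹ * z * (φ k⁻¹)⁻¹ = z
    rw [map_inv]
    conv_lhs => rw [← h2]
    group

end

section
variable {F : Type} [Field F] [Finite F] [Tits F] {σ : F ≃+* F}
  {φ : Sz (th : F →+* F) ≃* Sz (th : F →+* F)}

/-- module CZ2 -/
theorem cz2 (hF : 8 ≤ Nat.card F) (hφ : FAut σ φ) (h2 : F2 σ) (h4 : F2 (σ.trans σ))
    (z : Sz (th : F →+* F))
    (hz : ∀ (g : Sz (th : F →+* F)) (a b : F) (m : Fˣ), g⁻¹ * z * φ g ≠ sS a b * sM m) :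
    Nat.card {k : Sz (th : F →+* F) // k * z * (φ k)⁻¹ = z} ≤ Nat.card F ^ 2 + 1 ∧
    (Nat.card F = 8 → Nat.card {k : Sz (th : F →+* F) // k * z * (φ k)⁻¹ = z} ≤ 20) := by
  classical
  have hC : Nat.card {k : Sz (th : F →+* F) // k * z * (φ k)⁻¹ = z} = Nat.card (CC φ z) := rfl
  rw [hC]
  have hfree : ∀ (k : CC φ z) (g : Sz (th : F →+* F)),
      ((k.1 * g : Sz (th : F →+* F)) : Sz (th : F →+* F) ⧸ BB F) = g → k = 1 := by
    intro k g h
    apply Subtype.ext
    refine cz2_free hφ h4 z hz k.1 k.2 g ?_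
    have h1 := QuotientGroup.eq.1 h.symm
    rwa [← mul_assoc] at h1
  haveI : Finite (Sz (th : F →+* F) ⧸ BB F) := Nat.finite_of_card_ne_zero (by
    rw [card_quot]
    omega)
  have hdvd : Nat.card (CC φ z) ∣ Nat.card F ^ 2 + 1 := by
    have e := MulAction.sigmaFixedByEquivOrbitsProdGroup (CC φ z) (Sz (th : F →+* F) ⧸ BB F)
    have h1 := Nat.card_congr e
    rw [Nat.card_prod] at h1
    have e2 : (Σ g : CC φ z, MulAction.fixedBy (Sz (th : F →+* F) ⧸ BB F) g) ≃
        (Sz (th : F →+* F) ⧸ BB F) := by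
      refine Equiv.ofBijective (fun p => p.2.1) ⟨?_, fun x => ⟨⟨1, ⟨x, one_smul _ x⟩⟩, rfl⟩⟩
      have key : ∀ p : (Σ g : CC φ z, MulAction.fixedBy (Sz (th : F →+* F) ⧸ BB F) g),
          p.1 = 1 := by
        rintro ⟨k, x, hx⟩
        induction x using QuotientGroup.induction_on with
        | H g => exact hfree k g hx
      rintro ⟨k, x, hx⟩ ⟨l, y, hy⟩ h
      have h3 : k = 1 := key ⟨k, x, hx⟩
      have h4 : l = 1 := key ⟨l, y, hy⟩
      subst h3
      subst h4
      have h5 : x = y := h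
      subst h5
      rfl
    rw [← card_quot, ← Nat.card_congr e2, h1]
    exact Dvd.intro_left _ rfl
  haveI : Finite (CC φ z) := Nat.finite_of_card_ne_zero (fun h => by
    rw [h] at hdvd
    have := Nat.eq_zero_of_zero_dvd hdvd
    omega)
  refine ⟨Nat.le_of_dvd (by omega) hdvd, fun h8 => ?_⟩
  by_contra hcon
  push Not at hcon
  have h65 : Nat.card (CC φ z) = 65 := by
    rw [h8] at hdvd
    have h1 : Nat.card (CC φ z) ≤ 65 := Nat.le_of_dvd (by norm_num) hdvd
    obtain ⟨n, hn⟩ : ∃ n, n = Nat.card (CC φ z) := ⟨_, rfl⟩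
    rw [← hn] at hcon h1 hdvd ⊢
    interval_cases n <;> first | rfl | (exfalso; revert hdvd; decide)
  -- the group is regular on the points
  have hinj : Function.Injective (fun k : CC φ z =>
      ((k.1 : Sz (th : F →+* F)) : Sz (th : F →+* F) ⧸ BB F)) := by
    intro k l h
    have h1 := QuotientGroup.eq.1 h
    have h3 : k⁻¹ * l = 1 := by
      refine hfree (k⁻¹ * l) 1 ?_
      apply QuotientGroup.eq.2
      have h4 : ((k⁻¹ * l : CC φ z).1 * 1)⁻¹ * (1 : Sz (th : F →+* F)) = (k.1⁻¹ * l.1)⁻¹ := by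
        rw [mul_one, mul_one]
        rfl
      rw [h4]
      exact (BB F).inv_mem h1
    exact inv_mul_eq_one.1 h3
  have hbij : Function.Bijective (fun k : CC φ z =>
      ((k.1 : Sz (th : F →+* F)) : Sz (th : F →+* F) ⧸ BB F)) := by
    refine (Nat.bijective_iff_injective_and_card _).2 ⟨hinj, ?_⟩
    rw [h65, card_quot, h8]
    norm_num
  obtain ⟨c, hc⟩ := hbij.2 ((z : Sz (th : F →+* F)) : Sz (th : F →+* F) ⧸ BB F)
  have hc' := QuotientGroup.eq.1 hc
  have h20 := cz1 hF hφ h2 (c.1⁻¹ * z) ⟨1, by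
    obtain ⟨a, b, m, h⟩ := hc'
    refine ⟨a, b, m, ?_⟩
    rw [← h, map_one]
    group⟩
  have hle : Nat.card (CC φ z) ≤
      Nat.card {k : Sz (th : F →+* F) // k * (c.1⁻¹ * z) * (φ k)⁻¹ = c.1⁻¹ * z} := by
    haveI : Finite {k : Sz (th : F →+* F) // k * (c.1⁻¹ * z) * (φ k)⁻¹ = c.1⁻¹ * z} :=
      Subtype.finite
    refine Nat.card_le_card_of_injective (fun k : CC φ z =>
      (⟨k.1, ?_⟩ : {k : Sz (th : F →+* F) // k * (c.1⁻¹ * z) * (φ k)⁻¹ = c.1⁻¹ * z})) ?_
    · have h1 : k.1 * c.1⁻¹ = c.1⁻¹ * k.1 := congrArg Subtype.val (comm65 h65 k c⁻¹)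
      have h3 : k.1 * z * (φ k.1)⁻¹ = z := k.2
      calc k.1 * (c.1⁻¹ * z) * (φ k.1)⁻¹ = (k.1 * c.1⁻¹) * z * (φ k.1)⁻¹ := by group
        _ = c.1⁻¹ * (k.1 * z * (φ k.1)⁻¹) := by rw [h1]; group
        _ = _ := by rw [h3]
    · intro k l h
      exact Subtype.ext (congrArg (fun w => w.1) h)
  rw [h65] at hle
  omega

end

end Pool.Agent.SZT
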