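import Mathlib

/-! Two lemmas on finite groups for the twisted centralisers of `Sz(8)` (SZT, helper64). -/

set_option autoImplicit false

namespace Pool.Agent.SZT

/-- a subgroup which acts freely on the cosets of `B` has an order dividing the index of `B` -/
theorem free_dvd {G : Type} [Group G] (C B : Subgroup G)
    (h : ∀ g, ∀ k ∈ C, g⁻¹ * k * g ∈ B → k = 1) : Nat.card C ∣ B.index := by
  have hst : ∀ x : G ⧸ B, MulAction.stabilizer C x = ⊥ := by
    intro x
    induction x using QuotientGroup.induction_on with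
    | H g =>
      rw [eq_bot_iff]
      rintro ⟨k, hk⟩ hx
      rw [MulAction.mem_stabilizer_iff] at hx
      have h1 : ((k * g : G) : G ⧸ B) = (g : G ⧸ B) := hx
      have h2 : (k * g)⁻¹ * g ∈ B := QuotientGroup.eq.1 h1
      have h3 : g⁻¹ * k * g ∈ B := by
        have h4 := B.inv_mem h2
        have h5 : ((k * g)⁻¹ * g)⁻¹ = g⁻¹ * k * g := by group
        rwa [h5] at h4
      exact Subtype.ext (h g k hk h3)
  let e := (MulAction.selfEquivSigmaOrbitsQuotientStabilizer C (G ⧸ B)).trans
    (Equiv.sigmaCongrRight fun ω => (Subgroup.quotientEquivOfEq (hst _)).trans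
      (QuotientGroup.quotientBot (G := C)).toEquiv)
  have h1 := Nat.card_congr (e.trans (Equiv.sigmaEquivProd _ _))
  rw [Nat.card_prod] at h1
  rw [Subgroup.index, h1]
  exact dvd_mul_left _ _

/-- a group of order `65` is commutative -/
theorem comm65 {G : Type} [Group G] (hG : Nat.card G = 65) (a b : G) : a * b = b * a := by
  have hfin : Finite G := Nat.finite_of_card_ne_zero (by rw [hG]; norm_num)
  have : Fact (Nat.Prime 13) := ⟨by norm_num⟩
  have : Fact (Nat.Prime 5) := ⟨by norm_num⟩
  obtain ⟨K, hK⟩ := Sylow.exists_subgroup_card_pow_prime (G := G) 13 (n := 1)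
    (by rw [hG]; norm_num)
  rw [pow_one] at hK
  have hidx : K.index = 5 := by
    have h1 := K.card_mul_index
    rw [hK, hG] at h1
    omega
  have hn : K.Normal := Subgroup.normal_of_index_eq_minFac_card (by
    rw [hidx, hG]
    norm_num)
  have hcK : IsCyclic K := isCyclic_of_prime_card hK
  have hcQ : IsCyclic (G ⧸ K) := isCyclic_of_prime_card (p := 5) hidx
  have hcen : K ≤ Subgroup.center G := by
    intro k hk
    rw [Subgroup.mem_center_iff]
    intro g
    have h1 : orderOf (MulAut.conjNormal g : MulAut K) ∣ 65 := by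
      have h2 : orderOf (MulAut.conjNormal g : MulAut K) ∣ orderOf g := orderOf_map_dvd _ g
      exact h2.trans (hG ▸ orderOf_dvd_natCard g)
    have h3 : orderOf (MulAut.conjNormal g : MulAut K) ∣ 12 := by
      have h4 := orderOf_dvd_natCard (MulAut.conjNormal g : MulAut K)
      rw [IsCyclic.card_mulAut, hK] at h4
      have h5 : Nat.totient 13 = 12 := by decide
      rwa [h5] at h4
    have h6 : orderOf (MulAut.conjNormal g : MulAut K) ∣ Nat.gcd 65 12 := Nat.dvd_gcd h1 h3
    have h7 : Nat.gcd 65 12 = 1 := by norm_num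
    rw [h7, Nat.dvd_one, orderOf_eq_one_iff] at h6
    have h8 : ((MulAut.conjNormal g : MulAut K) ⟨k, hk⟩ : G) = k := by rw [h6]; rfl
    rw [MulAut.conjNormal_apply] at h8
    exact (mul_inv_eq_iff_eq_mul.1 h8)
  exact commutative_of_cyclic_center_quotient (QuotientGroup.mk' K)
    (by rw [QuotientGroup.ker_mk']; exact hcen) a b

end Pool.Agent.SZT
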