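import Pool.Agent.SZT.Defs
import Pool.Agent.SZQ.Brg
import Pool.Agent.SZQ.InstE

/-! SZT/CZ2b: from the free action of the twisted centraliser to the bounds (helper57). -/

set_option autoImplicit false

namespace Pool.Agent.SZT

open Pool.Agent.SZQ Pool.Agent.SZQ.Inst Pool.Agent.Helper8.SUZ

theorem comm65 {C : Type} [Group C] [Finite C] (h : Nat.card C = 65) (a b : C) :
    a * b = b * a := by
  have hz : IsZGroup C := IsZGroup.of_squarefree (by
    rw [h]
    rw [Nat.squarefree_iff_minSqFac]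
    decide +kernel)
  have h1 : Group.IsNilpotent C := by
    refine (Group.isNilpotent_of_finite_tfae (G := C)).out 0 3 |>.mpr ?_
    intro p hp P
    have := hp
    by_cases hd : p ∣ 65
    · have h2 : Nat.card (Sylow p C) ≡ 1 [MOD p] := card_sylow_modEq_one p C
      have h3 : Nat.card (Sylow p C) ∣ 65 := by
        rw [← h]
        exact (P.card_dvd_index).trans (Subgroup.index_dvd_card _)
      have h4 : p ∈ Nat.divisors 65 := Nat.mem_divisors.2 ⟨hd, by norm_num⟩
      have h5 : Nat.card (Sylow p C) ∈ Nat.divisors 65 := Nat.mem_divisors.2 ⟨h3, by norm_num⟩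
      have e : Nat.divisors 65 = {1, 5, 13, 65} := by decide +kernel
      rw [e] at h4 h5
      have h6 : Nat.card (Sylow p C) = 1 := by
        simp only [Finset.mem_insert, Finset.mem_singleton] at h4 h5
        rcases h4 with h4 | h4 | h4 | h4
        · exact absurd h4 hp.out.one_lt.ne'
        · subst h4
          rcases h5 with h5 | h5 | h5 | h5 <;> rw [h5] at h2 <;> first | exact h5 | (exact absurd h2 (by decide))
        · subst h4
          rcases h5 with h5 | h5 | h5 | h5 <;> rw [h5] at h2 <;> first | exact h5 | (exact absurd h2 (by decide))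
        · subst h4
          exact absurd hp.out (by norm_num)
      have : Subsingleton (Sylow p C) := (Nat.card_eq_one_iff_unique.1 h6).1
      exact Sylow.normal_of_subsingleton P
    · have h2 : Nat.card P = 1 := by
        obtain ⟨n, hn⟩ := P.2.exists_card_eq
        have h3 : Nat.card P ∣ 65 := by
          rw [← h]
          exact Subgroup.card_subgroup_dvd_card _
        cases n with
        | zero => simpa using hn
        | succ n =>
          exfalso
          apply hd
          have h4 : p ∣ Nat.card P := by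
            change Nat.card P = p ^ (n + 1) at hn
            rw [hn]
            exact dvd_pow_self p (by omega)
          exact h4.trans h3
      have h3 : (P : Subgroup C) = ⊥ := Subgroup.eq_bot_of_card_eq _ h2
      rw [h3]
      infer_instance
  have := h1
  have : IsCyclic C := inferInstance
  let := IsCyclic.commGroup (α := C)
  exact mul_comm a b


theorem dvd_of_free {C O : Type} [Group C] [MulAction C O]
    (h : ∀ (k : C) (p : O), k • p = p → k = 1) : Nat.card C ∣ Nat.card O := by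
  have e := MulAction.selfEquivOrbitsQuotientProd (G := C) (X := O) (fun b => by
    rw [Subgroup.eq_bot_iff_forall]
    intro k hk
    exact h k b hk)
  rw [Nat.card_congr e, Nat.card_prod]
  exact dvd_mul_left _ _

section
variable {G : Type} [Group G]

/-- the twisted centraliser -/
def Cz (φ : G ≃* G) (z : G) : Subgroup G where
  carrier := {k | k * z * (φ k)⁻¹ = z}
  mul_mem' := by
    intro a b ha hb
    have ha' : a * z * (φ a)⁻¹ = z := ha
    have hb' : b * z * (φ b)⁻¹ = z := hb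
    show a * b * z * (φ (a * b))⁻¹ = z
    rw [map_mul]
    calc a * b * z * (φ a * φ b)⁻¹ = a * (b * z * (φ b)⁻¹) * (φ a)⁻¹ := by group
      _ = z := by rw [hb', ha']
  one_mem' := by
    show 1 * z * (φ 1)⁻¹ = z
    simp
  inv_mem' := by
    intro a ha
    have ha' : a * z * (φ a)⁻¹ = z := ha
    show a⁻¹ * z * (φ a⁻¹)⁻¹ = z
    rw [map_inv, inv_inv]
    have h1 : z * φ a = a * z := (mul_inv_eq_iff_eq_mul.1 ha').symm
    rw [mul_assoc, h1, inv_mul_cancel_left]

theorem mem_Cz {φ : G ≃* G} {z k : G} : k ∈ Cz φ z ↔ k * z * (φ k)⁻¹ = z := Iff.rfl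

end

section
variable {F : Type} [Field F] [Finite F] [Tits F] {σ : F ≃+* F}
  {φ : Sz (th : F →+* F) ≃* Sz (th : F →+* F)}

/-- from freeness to the bounds -/
theorem cz2b (hF : 8 ≤ Nat.card F)
    (hcz1 : ∀ z : Sz (th : F →+* F),
      (∃ (g : Sz (th : F →+* F)) (a b : F) (m : Fˣ), g⁻¹ * z * φ g = sS a b * sM m) →
      Nat.card {k : Sz (th : F →+* F) // k * z * (φ k)⁻¹ = z} ≤ 20)
    (z : Sz (th : F →+* F))
    (hfree : ∀ k : Sz (th : F →+* F), k * z * (φ k)⁻¹ = z → k ≠ 1 →
      ∀ (g : Sz (th : F →+* F)) (a b : F) (m : Fˣ), g⁻¹ * k * g ≠ sS a b * sM m) :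
    Nat.card {k : Sz (th : F →+* F) // k * z * (φ k)⁻¹ = z} ≤ Nat.card F ^ 2 + 1 ∧
    (Nat.card F = 8 → Nat.card {k : Sz (th : F →+* F) // k * z * (φ k)⁻¹ = z} ≤ 20) := by
  obtain ⟨D, hU, -, hT⟩ := bnd_szE (F := F) hF
  have hB : ∀ g : Sz (th : F →+* F), g ∈ D.B → ∃ a b m, g = sS a b * sM m := by
    intro g hg
    obtain ⟨u, hu, t, ht, rfl⟩ := (D.mem_B g).1 hg
    rw [hU] at hu
    obtain ⟨a, b, rfl⟩ := hu
    obtain ⟨m, rfl⟩ := (hT t).1 ht
    exact ⟨a, b, m, rfl⟩
  have hfr : ∀ (k : Cz φ z) (p : Sz (th : F →+* F) ⧸ D.B), k • p = p → k = 1 := by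
    rintro ⟨k, hk⟩ p hp
    induction p using QuotientGroup.induction_on with
    | H g =>
      by_contra hne
      have hk1 : k ≠ 1 := fun h => hne (Subtype.ext h)
      have h1 : ((g : Sz (th : F →+* F)) : Sz (th : F →+* F) ⧸ D.B) =
          ((k * g : Sz (th : F →+* F)) : Sz (th : F →+* F) ⧸ D.B) := hp.symm
      rw [QuotientGroup.eq] at h1
      obtain ⟨a, b, m, h2⟩ := hB _ h1
      exact hfree k hk hk1 g a b m (by rw [mul_assoc]; exact h2)
  have hd : Nat.card (Cz φ z) ∣ Nat.card F ^ 2 + 1 := by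
    rw [← D.cardO']
    exact dvd_of_free hfr
  have hcard : Nat.card {k : Sz (th : F →+* F) // k * z * (φ k)⁻¹ = z} = Nat.card (Cz φ z) := rfl
  rw [hcard]
  refine ⟨Nat.le_of_dvd (by positivity) hd, fun h8 => ?_⟩
  rw [h8] at hd
  have h4 : Nat.card (Cz φ z) ∈ Nat.divisors 65 := Nat.mem_divisors.2 ⟨hd, by norm_num⟩
  have e : Nat.divisors 65 = {1, 5, 13, 65} := by decide +kernel
  rw [e] at h4
  simp only [Finset.mem_insert, Finset.mem_singleton] at h4
  rcases h4 with h4 | h4 | h4 | h4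
  · omega
  · omega
  · omega
  · exfalso
    have hcO : Nat.card (Sz (th : F →+* F) ⧸ D.B) = 65 := by
      rw [D.cardO', h8]; norm_num
    -- the orbit map is bijective
    have hinj : Function.Injective
        (fun k : Cz φ z => k • ((1 : Sz (th : F →+* F)) : Sz (th : F →+* F) ⧸ D.B)) := by
      intro k l hkl
      have h5 : (l⁻¹ * k) • ((1 : Sz (th : F →+* F)) : Sz (th : F →+* F) ⧸ D.B) =
          ((1 : Sz (th : F →+* F)) : Sz (th : F →+* F) ⧸ D.B) := by
        rw [mul_smul]
        have h6 : k • ((1 : Sz (th : F →+* F)) : Sz (th : F →+* F) ⧸ D.B) =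
          l • ((1 : Sz (th : F →+* F)) : Sz (th : F →+* F) ⧸ D.B) := hkl
        rw [h6, inv_smul_smul]
      have h6 := hfr _ _ h5
      rw [inv_mul_eq_one] at h6
      exact h6.symm
    have hbij : Function.Bijective
        (fun k : Cz φ z => k • ((1 : Sz (th : F →+* F)) : Sz (th : F →+* F) ⧸ D.B)) := by
      rw [Nat.bijective_iff_injective_and_card]
      exact ⟨hinj, by rw [h4, hcO]⟩
    obtain ⟨⟨c, hc⟩, hcc⟩ := hbij.2 ((z : Sz (th : F →+* F)) : Sz (th : F →+* F) ⧸ D.B)
    have h5 : ((c * 1 : Sz (th : F →+* F)) : Sz (th : F →+* F) ⧸ D.B) =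
        ((z : Sz (th : F →+* F)) : Sz (th : F →+* F) ⧸ D.B) := hcc
    rw [mul_one, QuotientGroup.eq] at h5
    obtain ⟨a, b, m, h6⟩ := hB _ h5
    have h7 := hcz1 (c⁻¹ * z) ⟨1, a, b, m, by rw [map_one]; simpa using h6⟩
    have h8' : Nat.card (Cz φ z) ≤ Nat.card (Cz φ (c⁻¹ * z)) := by
      apply Nat.card_le_card_of_injective (fun k : Cz φ z => (⟨k.1, by
        rw [mem_Cz]
        have h9 := comm65 h4 k (⟨c, hc⟩ : Cz φ z)⁻¹
        have h10 : k.1 * c⁻¹ = c⁻¹ * k.1 := congrArg Subtype.val h9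
        have h11 : k.1 * z * (φ k.1)⁻¹ = z := k.2
        calc k.1 * (c⁻¹ * z) * (φ k.1)⁻¹ = (k.1 * c⁻¹) * z * (φ k.1)⁻¹ := by group
          _ = c⁻¹ * (k.1 * z * (φ k.1)⁻¹) := by rw [h10]; group
          _ = c⁻¹ * z := by rw [h11]⟩ : Cz φ (c⁻¹ * z)))
      intro k l hkl
      exact Subtype.ext (congrArg (fun x : Cz φ (c⁻¹ * z) => x.1) hkl)
    have h9 : Nat.card (Cz φ (c⁻¹ * z)) ≤ 20 := h7
    omega

end

end Pool.Agent.SZT
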