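import Pool.Agent.SZQ.Inst

/-! Twisted cosets of the Suzuki groups, fixed field `F_2`: definitions (helper44). -/

set_option autoImplicit false

namespace Pool.Agent.SZT

open Pool.Agent.SZQ Pool.Agent.SZQ.Inst Pool.Agent.Helper8.SUZ

/-- a space of functions with sum zero, invariant under left and right translations -/
structure Inv {G : Type} [Group G] [Fintype G] (E : Submodule ℂ (G → ℂ)) : Prop where
  zero : ∀ f ∈ E, ∑ g, f g = 0
  left : ∀ f ∈ E, ∀ k : G, (fun g => f (k * g)) ∈ E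
  right : ∀ f ∈ E, ∀ k : G, (fun g => f (g * k)) ∈ E

/-- translation of functions on a `P`-set -/
def tl {X P : Type} [Group P] [MulAction P X] (p : P) : (X → ℂ) →ₗ[ℂ] (X → ℂ) where
  toFun f := fun x => f (p⁻¹ • x)
  map_add' _ _ := rfl
  map_smul' _ _ := rfl

section
variable {F : Type} [Field F] [Tits F]

/-- `φ` is the automorphism of the Suzuki group given by `σ` -/
def FAut (σ : F ≃+* F) (φ : Sz (th : F →+* F) ≃* Sz (th : F →+* F)) : Prop :=
  (∀ a b, φ (sS a b) = sS (σ a) (σ b)) ∧ (∀ m : Fˣ, φ (sM m) = sM (Units.map (σ : F →* F) m)) ∧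
    φ sW = sW

/-- the fixed field is `F_2` -/
def F2 (σ : F ≃+* F) : Prop := ∀ a, σ a = a → a = 0 ∨ a = 1

/-- functions of type `(ψ1, ψ2)` under the centre of `U` on both sides -/
def TyS (ψ1 ψ2 : AddChar F ℂ) : Submodule ℂ (Sz (th : F →+* F) → ℂ) where
  carrier := {f | (∀ b g, f (sS 0 b * g) = ψ1 b * f g) ∧ (∀ b g, f (g * sS 0 b) = ψ2 b * f g)}
  add_mem' := by
    rintro f f' ⟨h1, h2⟩ ⟨h3, h4⟩
    exact ⟨fun b g => by simp only [Pi.add_apply]; rw [h1, h3]; ring,
      fun b g => by simp only [Pi.add_apply]; rw [h2, h4]; ring⟩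
  zero_mem' := ⟨fun b g => by simp, fun b g => by simp⟩
  smul_mem' := by
    rintro c f ⟨h1, h2⟩
    exact ⟨fun b g => by simp only [Pi.smul_apply, smul_eq_mul]; rw [h1]; ring,
      fun b g => by simp only [Pi.smul_apply, smul_eq_mul]; rw [h2]; ring⟩

end

end Pool.Agent.SZT
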