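import Pool.Agent.SZT.Defs

/-! SZT, module Dsum (helper45): the spaces `TyS ψ1 ψ2` of different types are independent. -/

set_option autoImplicit false

namespace Pool.Agent.SZT

open Pool.Agent.SZQ Pool.Agent.SZQ.Inst Pool.Agent.Helper8.SUZ

private theorem ds_orth {F : Type} [Field F] [Fintype F] (ψ ψ' : AddChar F ℂ) :
    ∑ b, ψ (-b) * ψ' b = open Classical in if ψ = ψ' then (Fintype.card F : ℂ) else 0 := by
  classical
  have h1 : ∀ b, ψ (-b) * ψ' b = (ψ⁻¹ * ψ') b := by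
    intro b
    rw [AddChar.mul_apply, AddChar.inv_apply]
  simp only [h1]
  rw [AddChar.sum_eq_ite]
  have h2 : (ψ⁻¹ * ψ' = 0) ↔ ψ = ψ' := inv_mul_eq_one
  simp only [h2]

private theorem ds_gen {G F : Type} [Group G] [Fintype G] [Field F] [Fintype F] (s : F → G)
    (T : AddChar F ℂ → AddChar F ℂ → Submodule ℂ (G → ℂ))
    (hT : ∀ ψ1 ψ2, ∀ f ∈ T ψ1 ψ2, (∀ b g, f (s b * g) = ψ1 b * f g) ∧
      (∀ b g, f (g * s b) = ψ2 b * f g)) (E : Submodule ℂ (G → ℂ)) (d : ℕ)
    (h : ∀ ψ1 ψ2 : AddChar F ℂ, ψ1 ≠ 1 → ψ2 ≠ 1 →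
      d ≤ Module.finrank ℂ (E ⊓ T ψ1 ψ2 : Submodule ℂ (G → ℂ))) :
    (Fintype.card F - 1) ^ 2 * d ≤ Module.finrank ℂ E := by
  classical
  let J : Type := {ψ : AddChar F ℂ // ψ ≠ 1}
  have hJ : Fintype.card J = Fintype.card F - 1 := by
    have h1 := Fintype.card_subtype_compl (fun ψ : AddChar F ℂ => ψ = 1)
    rw [AddChar.card_eq, Fintype.card_subtype_eq] at h1
    exact h1
  let V : J × J → Submodule ℂ (G → ℂ) := fun i => E ⊓ T i.1.1 i.2.1
  let Φ : (∀ i : J × J, V i) →ₗ[ℂ] E :=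
    ∑ i, (Submodule.inclusion (inf_le_left : V i ≤ E)) ∘ₗ LinearMap.proj i
  have hΦ : ∀ v : (∀ i : J × J, V i), ((Φ v : E) : G → ℂ) = ∑ i, ((v i : V i) : G → ℂ) := by
    intro v
    simp only [Φ, LinearMap.sum_apply, LinearMap.comp_apply, LinearMap.proj_apply,
      AddSubmonoidClass.coe_finsetSum, Submodule.coe_inclusion]
  have hinj : Function.Injective Φ := by
    rw [injective_iff_map_eq_zero]
    intro v hv
    have h0 : ∑ i, ((v i : V i) : G → ℂ) = 0 := by
      rw [← hΦ, hv]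
      rfl
    funext j
    apply Subtype.ext
    funext g
    change ((v j : V j) : G → ℂ) g = 0
    have h1 : ∀ b c : F, ∑ i : J × J, i.1.1 b * i.2.1 c * ((v i : V i) : G → ℂ) g = 0 := by
      intro b c
      have h2 := congrFun h0 (s b * g * s c)
      rw [Finset.sum_apply] at h2
      rw [← (show (0 : G → ℂ) (s b * g * s c) = 0 from rfl), ← h2]
      refine Finset.sum_congr rfl fun i _ => ?_
      obtain ⟨h3, h4⟩ := hT i.1.1 i.2.1 _ (v i).2.2
      rw [h4, h3]
      ring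
    have h5 : ∑ b : F, ∑ c : F, j.1.1 (-b) * j.2.1 (-c) *
        ∑ i : J × J, i.1.1 b * i.2.1 c * ((v i : V i) : G → ℂ) g = 0 := by
      refine Finset.sum_eq_zero fun b _ => Finset.sum_eq_zero fun c _ => ?_
      rw [h1, mul_zero]
    have h6 : ∑ b : F, ∑ c : F, j.1.1 (-b) * j.2.1 (-c) *
        ∑ i : J × J, i.1.1 b * i.2.1 c * ((v i : V i) : G → ℂ) g =
        ∑ i : J × J, (∑ b, j.1.1 (-b) * i.1.1 b) * (∑ c, j.2.1 (-c) * i.2.1 c) *
          ((v i : V i) : G → ℂ) g := by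
      have h8 : ∀ i : J × J, (∑ b, j.1.1 (-b) * i.1.1 b) * (∑ c, j.2.1 (-c) * i.2.1 c) *
          ((v i : V i) : G → ℂ) g = ∑ b : F, ∑ c : F, j.1.1 (-b) * j.2.1 (-c) *
            (i.1.1 b * i.2.1 c * ((v i : V i) : G → ℂ) g) := by
        intro i
        rw [Finset.sum_mul_sum, Finset.sum_mul]
        refine Finset.sum_congr rfl fun b _ => ?_
        rw [Finset.sum_mul]
        refine Finset.sum_congr rfl fun c _ => ?_
        ring
      simp only [h8]
      symm
      rw [Finset.sum_comm]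
      refine Finset.sum_congr rfl fun b _ => ?_
      rw [Finset.sum_comm]
      refine Finset.sum_congr rfl fun c _ => ?_
      rw [Finset.mul_sum]
    rw [h6, Finset.sum_eq_single j] at h5
    · rw [ds_orth, ds_orth, if_pos rfl, if_pos rfl] at h5
      have hF : (Fintype.card F : ℂ) ≠ 0 := Nat.cast_ne_zero.2 Fintype.card_ne_zero
      exact (mul_eq_zero.1 h5).resolve_left (mul_ne_zero hF hF)
    · intro i _ hij
      rw [ds_orth, ds_orth]
      by_cases e1 : j.1.1 = i.1.1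
      · by_cases e2 : j.2.1 = i.2.1
        · exact absurd (Prod.ext (Subtype.ext e1.symm) (Subtype.ext e2.symm)) hij
        · rw [if_neg e2]
          ring
      · rw [if_neg e1]
        ring
    · intro hj
      exact absurd (Finset.mem_univ j) hj
  have h7 := LinearMap.finrank_le_finrank_of_injective hinj
  rw [Module.finrank_pi_fintype] at h7
  refine le_trans ?_ h7
  calc (Fintype.card F - 1) ^ 2 * d = ∑ _i : J × J, d := by
        rw [Finset.sum_const, Finset.card_univ, Fintype.card_prod, hJ, smul_eq_mul]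
        ring
    _ ≤ _ := Finset.sum_le_sum fun i _ => h i.1.1 i.2.1 i.1.2 i.2.2

section
variable {F : Type} [Field F] [Finite F] [Tits F]

variable [Fintype (Sz (th : F →+* F))]

/-- module Dsum -/
theorem dsum (E : Submodule ℂ (Sz (th : F →+* F) → ℂ)) (d : ℕ)
    (h : ∀ ψ1 ψ2 : AddChar F ℂ, ψ1 ≠ 1 → ψ2 ≠ 1 →
      d ≤ Module.finrank ℂ (E ⊓ TyS ψ1 ψ2 : Submodule ℂ (Sz (th : F →+* F) → ℂ))) :
    (Nat.card F - 1) ^ 2 * d ≤ Module.finrank ℂ E := by
  have : Fintype F := Fintype.ofFinite F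
  rw [Nat.card_eq_fintype_card]
  exact ds_gen (fun b => sS 0 b) (fun ψ1 ψ2 => TyS ψ1 ψ2) (fun ψ1 ψ2 f hf => hf) E d h

end

end Pool.Agent.SZT
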