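import Pool.Agent.SZT.Defs

/-! A normal subgroup of the Suzuki group containing the involutions of `U` is everything. -/

set_option autoImplicit false

namespace Pool.Agent.SZT

open Pool.Agent.SZQ Pool.Agent.SZQ.Inst Pool.Agent.Helper8.SUZ

variable {F : Type} [Field F] [Finite F] [Tits F]

private theorem nc_grp {Q : Type*} [Group Q] (M w t x : Q) (h1 : w * M = M⁻¹ * w)
    (h2 : w = t⁻¹ * x⁻¹) (h3 : M * t = t * M) : M⁻¹ * M⁻¹ = x * (M * x⁻¹ * M⁻¹) := by
  have h4 : M * w * M⁻¹ = w * (M⁻¹ * M⁻¹) := by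
    have h5 : M * w = w * M⁻¹ := by
      rw [eq_mul_inv_iff_mul_eq, mul_assoc, h1, mul_inv_cancel_left]
    rw [h5, mul_assoc]
  have h6 : M * t⁻¹ = t⁻¹ * M := by
    rw [mul_inv_eq_iff_eq_mul, mul_assoc, h3, inv_mul_cancel_left]
  have h7 : t⁻¹ * (x⁻¹ * (M⁻¹ * M⁻¹)) = t⁻¹ * (M * x⁻¹ * M⁻¹) := by
    calc t⁻¹ * (x⁻¹ * (M⁻¹ * M⁻¹)) = w * (M⁻¹ * M⁻¹) := by rw [h2, mul_assoc]
      _ = M * w * M⁻¹ := h4.symm
      _ = (M * t⁻¹) * x⁻¹ * M⁻¹ := by rw [h2]; group
      _ = t⁻¹ * (M * x⁻¹ * M⁻¹) := by rw [h6]; group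
  have h8 := mul_left_cancel h7
  rw [← h8, mul_inv_cancel_left]

/-- module NC -/
theorem nc (hF : 8 ≤ Nat.card F) (N : Subgroup (Sz (th : F →+* F))) [N.Normal]
    (h : ∀ b : F, sS 0 b ∈ N) : N = ⊤ := by
  classical
  obtain ⟨π, hπ⟩ : ∃ π : Sz (th : F →+* F) →* Sz (th : F →+* F) ⧸ N, π = QuotientGroup.mk' N :=
    ⟨_, rfl⟩
  have hker : ∀ g, π g = 1 ↔ g ∈ N := by
    intro g
    rw [hπ, QuotientGroup.mk'_apply, QuotientGroup.eq_one_iff]
  have hS : ∀ b : F, π (sS 0 b) = 1 := fun b => (hker _).2 (h b)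
  have hw2 : (sW : Sz (th : F →+* F)) * sW = 1 := Subtype.ext gW_sq
  have hwM : ∀ m : Fˣ, (sW : Sz (th : F →+* F)) * sM m = (sM m)⁻¹ * sW := by
    intro m
    rw [sM_inv]
    exact Subtype.ext (gW_gM m)
  -- the form of `w S(0, 1) w`
  obtain ⟨a, b, m, c, d, hf⟩ : ∃ (a b : F) (m : Fˣ) (c d : F),
      sW * sS 0 1 * sW = sS a b * sM m * sW * sS c d := by
    rcases s_form ((sW : Sz (th : F →+* F)) * sS 0 1 * sW) with ⟨a, b, m, hf⟩ | hf
    · exfalso
      have h1 : sS 0 0 * sM 1 * sW * sS (0 : F) 1 = sS a b * sM m * sW * sS 0 0 := by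
        rw [sS_zero, sM_one, one_mul, one_mul, mul_one, ← hf, mul_assoc _ sW sW, hw2, mul_one]
      exact one_ne_zero (s_big h1).2.2.2.2
    · exact hf
  have hone : π (sS a b) * π (sM m) * π sW * π (sS c d) = 1 := by
    rw [← map_mul, ← map_mul, ← map_mul, ← hf, map_mul, map_mul, hS, mul_one, ← map_mul, hw2,
      map_one]
  have hw : π sW = (π (sM m))⁻¹ * (π (sS c d * sS a b))⁻¹ := by
    rw [map_mul]
    calc π sW = (π (sM m))⁻¹ * (π (sS a b))⁻¹ *
          (π (sS a b) * π (sM m) * π sW * π (sS c d)) * (π (sS c d))⁻¹ := by group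
      _ = _ := by rw [hone]; group
  -- the fourth powers in the torus
  have hM4 : ∀ k : Fˣ, sM ((k * k) * (k * k)) ∈ N := by
    intro k
    have h1 := nc_grp (π (sM k)) (π sW) (π (sM m)) (π (sS c d * sS a b))
      (by rw [← map_mul, hwM, map_mul, map_inv]) hw
      (by rw [← map_mul, ← map_mul, sM_mul, sM_mul, mul_comm])
    obtain ⟨e, f, hef⟩ : ∃ e f : F, (sS c d * sS a b) *
        (sM k * (sS c d * sS a b)⁻¹ * (sM k)⁻¹) = sS e f := by
      rw [sS_mul, sS_inv, sM_conj, sS_mul]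
      exact ⟨_, _, rfl⟩
    have h2 : (π (sM k))⁻¹ * (π (sM k))⁻¹ = π (sS e f) := by
      rw [h1, ← hef]
      simp only [map_mul, map_inv]
    have h3 : π (sS e f) * π (sS e f) = 1 := by
      rw [← map_mul, sS_mul]
      have h4 : e + e = 0 := by linear_combination e * two_zero (F := F)
      rw [h4]
      exact hS _
    rw [← hker, ← sM_mul, ← sM_mul, map_mul, map_mul]
    have h5 : (π (sM k) * π (sM k)) * (π (sM k) * π (sM k)) =
        ((((π (sM k))⁻¹ * (π (sM k))⁻¹)) * ((π (sM k))⁻¹ * (π (sM k))⁻¹))⁻¹ := by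
      simp only [mul_inv_rev, inv_inv]
    rw [h5, h2, h3, inv_one]
  have hsq : ∀ m : Fˣ, ∃ k : Fˣ, k * k = m := by
    intro m
    have hinj : Function.Injective (fun k : Fˣ => k * k) := by
      intro k k' hk
      have h1 : (k : F) * k = (k' : F) * k' := by
        have := congrArg Units.val hk
        simpa using this
      have h2 : ((k : F) - k') ^ 2 = 0 := by
        linear_combination h1 + ((k' : F) * k' - (k : F) * k') * two_zero (F := F)
      exact Units.ext (sub_eq_zero.1 (pow_eq_zero_iff two_ne_zero |>.1 h2))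
    exact Finite.injective_iff_surjective.1 hinj m
  have hM : ∀ m : Fˣ, sM m ∈ N := by
    intro m
    obtain ⟨k, rfl⟩ := hsq m
    obtain ⟨l, rfl⟩ := hsq k
    exact hM4 l
  -- the commutator
  have hU : UU F ≤ N := by
    obtain ⟨k, hk⟩ : ∃ k : Fˣ, k ≠ 1 := by
      by_contra hcon
      push Not at hcon
      have h1 : Nat.card Fˣ ≤ 1 := by
        rw [Finite.card_le_one_iff_subsingleton]
        exact ⟨fun x y => by rw [hcon x, hcon y]⟩
      rw [Nat.card_units] at h1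
      omega
    have hth : th (k : F) ≠ 1 := fun h1 => hk (fp_a h1)
    have hth0 : th (k : F) ≠ 0 := th_ne k.ne_zero
    have h1 : sM k * sS 1 0 * (sM k)⁻¹ * (sS (1 : F) 0)⁻¹ ∈ N := by
      have h2 : sM k * sS 1 0 * (sM k)⁻¹ * (sS (1 : F) 0)⁻¹ =
          sM k * (sS 1 0 * (sM k)⁻¹ * (sS (1 : F) 0)⁻¹) := by group
      rw [h2]
      exact N.mul_mem (hM k) (Subgroup.Normal.conj_mem inferInstance _ (N.inv_mem (hM k)) _)
    rw [sM_conj, sS_inv, sS_mul] at h1
    refine gen N hM ?_ h1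
    intro h3
    apply hth
    have h4 : 1 / th (k : F) = 1 := by linear_combination h3 - two_zero (F := F)
    rw [div_eq_iff hth0, one_mul] at h4
    exact h4.symm
  have hWN : (sW : Sz (th : F →+* F)) ∈ N := by
    rw [← hker, hw, (hker _).2 (hM m), (hker _).2 (N.mul_mem (hU ⟨c, d, rfl⟩) (hU ⟨a, b, rfl⟩))]
    group
  rw [Subgroup.eq_top_iff']
  intro g
  rcases s_form g with ⟨a', b', m', rfl⟩ | ⟨a', b', m', c', d', rfl⟩
  · exact N.mul_mem (hU ⟨a', b', rfl⟩) (hM m')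
  · exact N.mul_mem (N.mul_mem (N.mul_mem (hU ⟨a', b', rfl⟩) (hM m')) hWN) (hU ⟨c', d', rfl⟩)

end Pool.Agent.SZT
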