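import Pool.Agent.SZT.Defs

/-! Twisted cosets of the Suzuki groups, module P2: a component of nontrivial type on both sides (helper58). -/

set_option autoImplicit false

namespace Pool.Agent.SZT

theorem p2_one {F : Type} [Field F] [Fintype F] {X : Type} (T : F → X → X) (h0 : ∀ x, T 0 x = x)
    (hT : ∀ b c x, T (b + c) x = T b (T c x)) (E : Submodule ℂ (X → ℂ))
    (hE : ∀ f ∈ E, ∀ b, (fun x => f (T b x)) ∈ E) (f0 : X → ℂ) (hf : f0 ∈ E) (hf0 : f0 ≠ 0)
    (h1 : ∀ x, ∑ b, f0 (T b x) = 0) :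
    ∃ ψ : AddChar F ℂ, ψ ≠ 1 ∧ (fun x => ∑ b, ψ (-b) * f0 (T b x)) ∈ E ∧
      (fun x => ∑ b, ψ (-b) * f0 (T b x)) ≠ 0 ∧
      ∀ b x, (∑ c, ψ (-c) * f0 (T c (T b x))) = ψ b * ∑ c, ψ (-c) * f0 (T c x) := by
  classical
  have key : ∃ ψ : AddChar F ℂ, (fun x => ∑ b, ψ (-b) * f0 (T b x)) ≠ 0 := by
    by_contra hcon
    push Not at hcon
    apply hf0
    funext x
    have h2 : ∑ ψ : AddChar F ℂ, ∑ b, ψ (-b) * f0 (T b x) = 0 :=
      Finset.sum_eq_zero fun ψ _ => congrFun (hcon ψ) x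
    rw [Finset.sum_comm] at h2
    have h3 : ∀ b : F, ∑ ψ : AddChar F ℂ, ψ (-b) * f0 (T b x) =
        if b = 0 then (Fintype.card F : ℂ) * f0 x else 0 := by
      intro b
      rw [← Finset.sum_mul, AddChar.sum_apply_eq_ite]
      by_cases hb : b = 0
      · subst hb; simp [h0]
      · simp [hb]
    simp only [h3, Finset.sum_ite_eq', Finset.mem_univ, if_true] at h2
    have : (Fintype.card F : ℂ) ≠ 0 := by exact_mod_cast Fintype.card_ne_zero
    simpa [this] using h2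
  obtain ⟨ψ, hψ⟩ := key
  refine ⟨ψ, ?_, ?_, hψ, ?_⟩
  · rintro rfl
    apply hψ
    funext x
    simpa using h1 x
  · have : (fun x => ∑ b, ψ (-b) * f0 (T b x)) = ∑ b, ψ (-b) • (fun x => f0 (T b x)) := by
      funext x
      simp [Finset.sum_apply]
    rw [this]
    exact E.sum_mem fun b _ => E.smul_mem _ (hE f0 hf b)
  · intro b x
    rw [Finset.mul_sum]
    refine Fintype.sum_equiv (Equiv.addRight b) _ _ fun c => ?_
    simp only [Equiv.coe_addRight]
    rw [hT c b x]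
    have : ψ (-c) = ψ b * ψ (-(c + b)) := by
      rw [← AddChar.map_add_eq_mul]; congr 1; ring
    rw [this]; ring

section
variable {G : Type} [Group G] [Fintype G]

/-- module P2 -/
theorem p2 {F : Type} [Field F] [Fintype F] (s : F → G) (hs : ∀ b c, s (b + c) = s b * s c)
    (E : Submodule ℂ (G → ℂ)) (hE : Inv E) (f0 : G → ℂ) (hf : f0 ∈ E) (hf0 : f0 ≠ 0)
    (h1 : ∀ g, ∑ b, f0 (s b * g) = 0) (h2 : ∀ g, ∑ b, f0 (g * s b) = 0) :
    ∃ ψ1 ψ2 : AddChar F ℂ, ψ1 ≠ 1 ∧ ψ2 ≠ 1 ∧ ∃ f ∈ E, f ≠ 0 ∧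
      (∀ b g, f (s b * g) = ψ1 b * f g) ∧ (∀ b g, f (g * s b) = ψ2 b * f g) := by
  have hs0 : s 0 = 1 := by
    have h := hs 0 0
    rw [add_zero] at h
    exact (mul_eq_left.mp h.symm)
  obtain ⟨ψ1, hψ1, hm1, hn1, ht1⟩ := p2_one (fun b g => s b * g) (fun x => by simp [hs0])
    (fun b c x => by simp [hs, mul_assoc]) E (fun f hf b => hE.left f hf (s b)) f0 hf hf0 h1
  obtain ⟨ψ2, hψ2, hm2, hn2, ht2⟩ := p2_one (fun b g => g * s b) (fun x => by simp [hs0])
    (fun b c x => by rw [add_comm, hs, mul_assoc]) E (fun f hf b => hE.right f hf (s b)) _ hm1 hn1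
    (fun x => by
      rw [Finset.sum_comm]
      refine Finset.sum_eq_zero fun c _ => ?_
      rw [← Finset.mul_sum]
      have := h2 (s c * x)
      simp only [mul_assoc] at this
      rw [this, mul_zero])
  refine ⟨ψ1, ψ2, hψ1, hψ2, _, hm2, hn2, fun b g => ?_, fun b g => ht2 b g⟩
  rw [Finset.mul_sum]
  refine Finset.sum_congr rfl fun c _ => ?_
  have := ht1 b (g * s c)
  rw [mul_assoc (s b) g (s c), this]
  ring

end

end Pool.Agent.SZT
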