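import Pool.Agent.SZT.Defs

/-! # SZT/P3: the torus permutes the types -/

set_option autoImplicit false

namespace Pool.Agent.SZT

open Pool.Agent.SZQ Pool.Agent.SZQ.Inst Pool.Agent.Helper8.SUZ

section
variable {F : Type} [Field F] [Finite F] [Tits F]

/-- every nontrivial character is a shift of a given nontrivial one -/
theorem p3_shift {F : Type} [Field F] [Finite F] (ψ ψ' : AddChar F ℂ) (h : ψ ≠ 1) (h' : ψ' ≠ 1) :
    ∃ c : F, c ≠ 0 ∧ ∀ b, ψ' b = ψ (c * b) := by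
  have := Fintype.ofFinite F
  have hinj := AddChar.to_mulShift_inj_of_isPrimitive (AddChar.IsPrimitive.of_ne_one h)
  have hbij : Function.Bijective ψ.mulShift := by
    rw [Fintype.bijective_iff_injective_and_card]
    exact ⟨hinj, AddChar.card_eq.symm⟩
  obtain ⟨c, hc⟩ := hbij.2 ψ'
  refine ⟨c, ?_, fun b => ?_⟩
  · rintro rfl
    apply h'
    rw [← hc, AddChar.mulShift_zero]
  · rw [← hc, AddChar.mulShift_apply]

theorem p3_surj {c : F} (hc : c ≠ 0) : ∃ m : Fˣ, th (m : F) * (m : F) ^ 2 = c := by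
  let f : Fˣ →* Fˣ :=
    { toFun := fun m => Units.mk0 (th (m : F) * (m : F) ^ 2)
        (mul_ne_zero (th_ne m.ne_zero) (pow_ne_zero 2 m.ne_zero))
      map_one' := by
        apply Units.ext
        simp
      map_mul' := fun m k => by
        apply Units.ext
        simp only [Units.val_mk0, Units.val_mul, map_mul]
        ring }
  have hf : Function.Injective f := by
    rw [injective_iff_map_eq_one]
    intro m hm
    exact fp_b (congrArg Units.val hm)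
  obtain ⟨m, hm⟩ := Finite.injective_iff_surjective.1 hf (Units.mk0 c hc)
  exact ⟨m, congrArg Units.val hm⟩

variable [Fintype (Sz (th : F →+* F))]

/-- module P3 -/
theorem p3 (E : Submodule ℂ (Sz (th : F →+* F) → ℂ)) (hE : Inv E) (ψ1 ψ2 ψ1' ψ2' : AddChar F ℂ)
    (h1 : ψ1 ≠ 1) (h2 : ψ2 ≠ 1) (h1' : ψ1' ≠ 1) (h2' : ψ2' ≠ 1) (h : E ⊓ TyS ψ1 ψ2 ≠ ⊥) :
    E ⊓ TyS ψ1' ψ2' ≠ ⊥ := by
  obtain ⟨f, hf, hf0⟩ := Submodule.exists_mem_ne_zero_of_ne_bot h
  obtain ⟨hfE, hfl, hfr⟩ := hf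
  obtain ⟨c1, hc1, hs1⟩ := p3_shift ψ1 ψ1' h1 h1'
  obtain ⟨c2, hc2, hs2⟩ := p3_shift ψ2 ψ2' h2 h2'
  obtain ⟨m, hm⟩ := p3_surj (F := F) (inv_ne_zero hc1)
  obtain ⟨k, hk⟩ := p3_surj (F := F) (inv_ne_zero hc2)
  obtain ⟨f', hf'⟩ : ∃ f' : Sz (th : F →+* F) → ℂ, ∀ g, f' g = f (sM m * g * (sM k)⁻¹) :=
    ⟨_, fun _ => rfl⟩
  have hmem : f' ∈ E := by
    have e1 := hE.right _ (hE.left f hfE (sM m)) (sM k)⁻¹
    have e2 : f' = fun g => f (sM m * (g * (sM k)⁻¹)) := by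
      funext g
      rw [hf', mul_assoc]
    rw [e2]
    exact e1
  have hl : ∀ b g, f' (sS 0 b * g) = ψ1' b * f' g := by
    intro b g
    have e1 : sM m * (sS 0 b * g) * (sM k)⁻¹ =
        (sM m * sS 0 b * (sM m)⁻¹) * (sM m * g * (sM k)⁻¹) := by group
    rw [hf', hf', e1, sM_conj, zero_div, hfl, hs1, hm]
    congr 2
    rw [div_inv_eq_mul, mul_comm]
  have hr : ∀ b g, f' (g * sS 0 b) = ψ2' b * f' g := by
    intro b g
    have e1 : sM m * (g * sS 0 b) * (sM k)⁻¹ =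
        (sM m * g * (sM k)⁻¹) * (sM k * sS 0 b * (sM k)⁻¹) := by group
    rw [hf', hf', e1, sM_conj, zero_div, hfr, hs2, hk]
    congr 2
    rw [div_inv_eq_mul, mul_comm]
  intro hbot
  have h3 : f' ∈ E ⊓ TyS ψ1' ψ2' := ⟨hmem, hl, hr⟩
  rw [hbot, Submodule.mem_bot] at h3
  apply hf0
  funext g
  have h4 := congrFun h3 ((sM m)⁻¹ * g * sM k)
  rw [hf'] at h4
  have e1 : sM m * ((sM m)⁻¹ * g * sM k) * (sM k)⁻¹ = g := by group
  rwa [e1] at h4

end

end Pool.Agent.SZT
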