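import Mathlib
import Pool.Agent.SZT.Defs

/-! The trace inequality for a permutation module. -/

set_option autoImplicit false

namespace Pool.Agent.SZT

private theorem norm_trace_le {V : Type} [AddCommGroup V] [Module ℂ V] [FiniteDimensional ℂ V]
    (f : Module.End ℂ V) (N : ℕ) (hN : N ≠ 0) (hf : f ^ N = 1) :
    ‖LinearMap.trace ℂ V f‖ ≤ Module.finrank ℂ V := by
  rw [Module.End.trace_eq_sum_roots_charpoly_of_splits (IsAlgClosed.splits _)]
  refine (norm_multiset_sum_le _).trans ?_
  have h1 : ∀ μ ∈ f.charpoly.roots, ‖μ‖ = 1 := by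
    intro μ hμ
    have h2 : f.HasEigenvalue μ :=
      (Module.End.hasEigenvalue_iff_isRoot_charpoly f μ).2 (Polynomial.isRoot_of_mem_roots hμ)
    obtain ⟨v, hv⟩ := h2.exists_hasEigenvector
    have h3 : (f ^ N) v = μ ^ N • v := hv.pow_apply N
    rw [hf] at h3
    have h4 : μ ^ N = 1 := by
      have h5 : (μ ^ N - 1) • v = 0 := by
        rw [sub_smul, ← h3, one_smul]
        simp
      rcases smul_eq_zero.1 h5 with h6 | h6
      · exact sub_eq_zero.1 h6
      · exact absurd h6 hv.2
    exact Complex.norm_eq_one_of_pow_eq_one h4 hN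
  have h2 : (f.charpoly.roots.map fun x => ‖x‖) = f.charpoly.roots.map fun _ => (1 : ℝ) :=
    Multiset.map_congr rfl h1
  rw [h2, Multiset.map_const', Multiset.sum_replicate, nsmul_eq_mul, mul_one]
  have h3 := Polynomial.card_roots' f.charpoly
  rw [LinearMap.charpoly_natDegree] at h3
  exact_mod_cast h3

/-- module Trl -/
theorem trl {X P : Type} [Fintype X] [Group P] [Finite P] [MulAction P X]
    (V : Submodule ℂ (X → ℂ)) (hV : V ≠ ⊥) (hinv : ∀ p : P, ∀ f ∈ V, tl p f ∈ V) (R : Set P)
    (hR : ∀ p ∉ R, LinearMap.trace ℂ V ((tl p).restrict (hinv p)) = 0) :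
    Nat.card P ≤ Nat.card R * Module.finrank ℂ V ^ 2 := by
  classical
  have : Fintype P := Fintype.ofFinite P
  let ρ : Representation ℂ P V :=
    { toFun := fun p => (tl p).restrict (hinv p)
      map_one' := by
        ext f x
        change (f : X → ℂ) ((1 : P)⁻¹ • x) = (f : X → ℂ) x
        rw [inv_one, one_smul]
      map_mul' := by
        intro p q
        ext f x
        change (f : X → ℂ) ((p * q)⁻¹ • x) = (f : X → ℂ) (q⁻¹ • p⁻¹ • x)
        rw [mul_inv_rev, mul_smul] }
  have hχ : ∀ p, ρ.character p = LinearMap.trace ℂ V ((tl p).restrict (hinv p)) := fun p => rfl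
  have hb : ∀ p, ‖ρ.character p‖ ≤ Module.finrank ℂ V := by
    intro p
    refine norm_trace_le (ρ p) (orderOf p) (orderOf_pos p).ne' ?_
    rw [← map_pow, pow_orderOf_eq_one, map_one]
  have hcard : (Nat.card P : ℂ) ≠ 0 := by
    have : Nat.card P ≠ 0 := Nat.card_pos.ne'
    exact_mod_cast this
  have : Invertible (Nat.card P : ℂ) := invertibleOfNonzero hcard
  have h1 := Representation.card_inv_mul_sum_char_mul_char_eq_finrank ρ ρ
  have h2 : 0 < Module.finrank ℂ (Representation.IntertwiningMap ρ ρ) := by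
    let e : Representation.IntertwiningMap ρ ρ := ⟨LinearMap.id, fun g => by
      rw [LinearMap.id_comp, LinearMap.comp_id]⟩
    have hne : e ≠ 0 := by
      intro h
      apply hV
      rw [Submodule.eq_bot_iff]
      intro f hf
      have h4 := congrArg (fun g : Representation.IntertwiningMap ρ ρ =>
        ((g ⟨f, hf⟩ : V) : X → ℂ)) h
      exact h4
    have : Nontrivial (Representation.IntertwiningMap ρ ρ) := ⟨e, 0, hne⟩
    exact Module.finrank_pos (R := ℂ) (M := Representation.IntertwiningMap ρ ρ)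
  have h3 : (Nat.card P : ℝ) ≤ ‖∑ p : P, ρ.character p * ρ.character p⁻¹‖ := by
    have h4 : ∑ p : P, ρ.character p * ρ.character p⁻¹ = (Nat.card P : ℂ) *
        (Module.finrank ℂ (Representation.IntertwiningMap ρ ρ) : ℂ) := by
      rw [← h1, mul_inv_cancel_left₀ hcard]
    rw [h4, norm_mul, Complex.norm_natCast, Complex.norm_natCast]
    have h5 : (1 : ℝ) ≤
        (Module.finrank ℂ (Representation.IntertwiningMap ρ ρ) : ℝ) := by
      exact_mod_cast h2
    have h6 : (0 : ℝ) ≤ (Nat.card P : ℝ) := Nat.cast_nonneg _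
    nlinarith
  have h4 : ‖∑ p : P, ρ.character p * ρ.character p⁻¹‖ ≤
      (Nat.card R : ℝ) * (Module.finrank ℂ V : ℝ) ^ 2 := by
    have h5 : ∀ p : P, ‖ρ.character p * ρ.character p⁻¹‖ ≤
        if p ∈ R then (Module.finrank ℂ V : ℝ) ^ 2 else 0 := by
      intro p
      rw [norm_mul]
      split_ifs with hp
      · rw [sq]
        exact mul_le_mul (hb _) (hb _) (norm_nonneg _) (Nat.cast_nonneg _)
      · rw [hχ p, hR p hp, norm_zero, zero_mul]
    refine (norm_sum_le _ _).trans ((Finset.sum_le_sum fun p _ => h5 p).trans ?_)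
    rw [← Finset.sum_filter, Finset.sum_const, nsmul_eq_mul]
    have h6 : (Finset.univ.filter fun p => p ∈ R).card = Nat.card R := by
      rw [Nat.card_eq_fintype_card, Fintype.card_subtype]
    rw [h6]
  have h7 := h3.trans h4
  exact_mod_cast h7

end Pool.Agent.SZT
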