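import Pool.Agent.SZT.Defs
import Pool.Agent.SZT.Trl

/-! SZT / P4: the dimension of a space of type `(ψ1, ψ2)`.

`P = U × U` acts on the group by `(u, v) g = u g v⁻¹`. Conjugation by `(S(c, 0), 1)` multiplies `(S(a, b), v)` by `(S(0, th a c + th c a), 1)`,
so the trace vanishes outside the radical, which has at most two elements. -/

set_option autoImplicit false

namespace Pool.Agent.SZT

open Pool.Agent.SZQ Pool.Agent.SZQ.Inst Pool.Agent.Helper8.SUZ

namespace P4h90

variable {F : Type} [Field F] [Finite F] [Tits F]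

/-- the radical of the form `ψ (th a * c + th c * a)` -/
def Rad (ψ : AddChar F ℂ) : Set F := {a | ∀ c, ψ (th a * c + th c * a) = 1}

theorem add_self' (x : F) : x + x = 0 := by linear_combination x * two_zero (F := F)

theorem neg_eq' (x : F) : -x = x := by linear_combination -x * two_zero (F := F)

theorem rad_eq {ψ : AddChar F ℂ} {a : F} (ha : a ∈ Rad ψ) (h0 : a ≠ 0) :
    ∃ a' : F, th a' = a ∧ ∀ x, ψ (th x) = ψ (a' * x) := by
  obtain ⟨a', rfl⟩ := th_surj a
  have ha' : a' ≠ 0 := by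
    rintro rfl
    exact h0 (map_zero _)
  refine ⟨a', rfl, fun x => ?_⟩
  have h1 := ha (x / a')
  rw [th_th] at h1
  have h2 : a' ^ 2 * (x / a') = a' * x := by
    field_simp
  have h3 : th (x / a') * th a' = th x := by
    rw [← map_mul]
    congr 1
    field_simp
  rw [h2, h3, AddChar.map_add_eq_mul] at h1
  have h4 : ψ (a' * x) * ψ (a' * x) = 1 := by
    rw [← AddChar.map_add_eq_mul, add_self', AddChar.map_zero_eq_one]
  calc ψ (th x) = (ψ (a' * x) * ψ (a' * x)) * ψ (th x) := by rw [h4, one_mul]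
    _ = ψ (a' * x) * (ψ (a' * x) * ψ (th x)) := by ring
    _ = ψ (a' * x) := by rw [h1, mul_one]

theorem rad_unique {ψ : AddChar F ℂ} (hψ : ψ ≠ 1) {a b : F} (ha : a ∈ Rad ψ) (hb : b ∈ Rad ψ)
    (ha0 : a ≠ 0) (hb0 : b ≠ 0) : a = b := by
  obtain ⟨a', rfl, h1⟩ := rad_eq ha ha0
  obtain ⟨b', rfl, h2⟩ := rad_eq hb hb0
  by_contra hne
  have hab : a' - b' ≠ 0 := by
    intro h
    exact hne (by rw [sub_eq_zero.1 h])
  apply hψ
  refine DFunLike.ext _ _ fun y => ?_
  rw [AddChar.one_apply]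
  have h3 : ψ (a' * (y / (a' - b'))) = ψ (b' * (y / (a' - b'))) := by rw [← h1, ← h2]
  have h4 : y = a' * (y / (a' - b')) + b' * (y / (a' - b')) := by
    have h5 : y = (a' - b') * (y / (a' - b')) := by field_simp
    have h6 : b' * (y / (a' - b')) = -(b' * (y / (a' - b'))) := (neg_eq' _).symm
    rw [h6]
    linear_combination h5
  rw [h4, AddChar.map_add_eq_mul, h3, ← AddChar.map_add_eq_mul, add_self', AddChar.map_zero_eq_one]

theorem rad_card {ψ : AddChar F ℂ} (hψ : ψ ≠ 1) : (Rad ψ).ncard ≤ 2 := by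
  classical
  by_cases h : ∃ a ∈ Rad ψ, a ≠ 0
  · obtain ⟨a, ha, ha0⟩ := h
    have h1 : Rad ψ ⊆ ({0, a} : Set F) := by
      intro b hb
      by_cases hb0 : b = 0
      · exact Or.inl hb0
      · exact Or.inr (rad_unique hψ hb ha hb0 ha0)
    refine (Set.ncard_le_ncard h1 (Set.toFinite _)).trans ?_
    have h2 := Set.ncard_insert_le (0 : F) ({a} : Set F)
    rwa [Set.ncard_singleton] at h2
  · push Not at h
    have h1 : Rad ψ ⊆ ({0} : Set F) := fun b hb => h b hb
    refine (Set.ncard_le_ncard h1 (Set.toFinite _)).trans ?_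
    rw [Set.ncard_singleton]
    norm_num

/-- `U` is parametrised by pairs -/
noncomputable def eU (F : Type) [Field F] [Tits F] : F × F ≃ UU F :=
  Equiv.ofBijective (fun p => ⟨sS p.1 p.2, p.1, p.2, rfl⟩) (by
    constructor
    · rintro ⟨a, b⟩ ⟨c, d⟩ h
      obtain ⟨h1, h2⟩ := sS_inj (congrArg Subtype.val h)
      exact Prod.ext h1 h2
    · rintro ⟨_, a, b, rfl⟩
      exact ⟨(a, b), rfl⟩)

theorem eU_val (p : F × F) : ((eU F p : UU F) : Sz (th : F →+* F)) = sS p.1 p.2 := rfl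

/-- the action of `U × U` -/
def act (F : Type) [Field F] [Tits F] : MulAction (UU F × UU F) (Sz (th : F →+* F)) where
  smul p g := (p.1 : Sz (th : F →+* F)) * g * (p.2 : Sz (th : F →+* F))⁻¹
  one_smul g := by
    change ((1 : UU F) : Sz (th : F →+* F)) * g * ((1 : UU F) : Sz (th : F →+* F))⁻¹ = g
    simp
  mul_smul p q g := by
    change ((p.1 * q.1 : UU F) : Sz (th : F →+* F)) * g * ((p.2 * q.2 : UU F) : Sz (th : F →+* F))⁻¹ =
      (p.1 : Sz (th : F →+* F)) * ((q.1 : Sz (th : F →+* F)) * g * (q.2 : Sz (th : F →+* F))⁻¹) *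
        (p.2 : Sz (th : F →+* F))⁻¹
    simp only [Subgroup.coe_mul, mul_inv_rev, mul_assoc]

theorem comm_left (a b c : F) : sS c 0 * sS a b * (sS c 0)⁻¹ = sS 0 (th a * c + th c * a) * sS a b := by
  rw [mul_inv_eq_iff_eq_mul, sS_mul, mul_assoc, sS_mul, sS_mul]
  congr 1
  · ring
  · rw [map_zero]
    linear_combination -(th a * c) * two_zero (F := F)

theorem cen0 (a b c : F) : sS 0 c * sS a b = sS a b * sS 0 c := by
  rw [sS_mul, sS_mul]
  congr 1
  · ring
  · rw [map_zero]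
    ring

theorem inv_self' (c : F) : (sS (0 : F) c)⁻¹ = sS 0 c := by
  rw [sS_inv]
  congr 1
  rw [mul_zero, add_zero]

end P4h90

open P4h90

variable {F : Type} [Field F] [Finite F] [Tits F]
variable [Fintype (Sz (th : F →+* F))]

/-- module P4 -/
theorem p4 (E : Submodule ℂ (Sz (th : F →+* F) → ℂ)) (hE : Inv E) (ψ1 ψ2 : AddChar F ℂ)
    (h1 : ψ1 ≠ 1) (h2 : ψ2 ≠ 1) (h : E ⊓ TyS ψ1 ψ2 ≠ ⊥) :
    Nat.card F ≤ 2 * Module.finrank ℂ (E ⊓ TyS ψ1 ψ2 : Submodule ℂ (Sz (th : F →+* F) → ℂ)) := by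
  classical
  let _ := act F
  obtain ⟨V, hVdef⟩ : ∃ V : Submodule ℂ (Sz (th : F →+* F) → ℂ), V = E ⊓ TyS ψ1 ψ2 := ⟨_, rfl⟩
  rw [← hVdef] at h ⊢
  have htl : ∀ (p : UU F × UU F) (f : Sz (th : F →+* F) → ℂ) (g : Sz (th : F →+* F)),
      tl p f g = f ((p.1 : Sz (th : F →+* F))⁻¹ * g * (p.2 : Sz (th : F →+* F))) := by
    intro p f g
    change f (((p⁻¹).1 : Sz (th : F →+* F)) * g * ((p⁻¹).2 : Sz (th : F →+* F))⁻¹) = _
    simp
  have hVm : ∀ f, f ∈ V ↔ f ∈ E ∧ (∀ b g, f (sS 0 b * g) = ψ1 b * f g) ∧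
      (∀ b g, f (g * sS 0 b) = ψ2 b * f g) := by
    intro f
    rw [hVdef, Submodule.mem_inf]
    rfl
  have hcen : ∀ (u : UU F) (b : F), sS 0 b * (u : Sz (th : F →+* F)) = u * sS 0 b := by
    rintro ⟨_, a, c, rfl⟩ b
    exact cen0 a c b
  have hcen' : ∀ (u : UU F) (b : F), sS 0 b * (u : Sz (th : F →+* F))⁻¹ = (u : Sz (th : F →+* F))⁻¹ *
      sS 0 b := by
    intro u b
    have := hcen u⁻¹ b
    simpa using this
  have hinv : ∀ p : UU F × UU F, ∀ f ∈ V, tl p f ∈ V := by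
    intro p f hf
    rw [hVm] at hf ⊢
    obtain ⟨hfE, hf1, hf2⟩ := hf
    refine ⟨?_, ?_, ?_⟩
    · have e1 := hE.right _ (hE.left f hfE (p.1 : Sz (th : F →+* F))⁻¹) (p.2 : Sz (th : F →+* F))
      have e2 : tl p f = fun g => f ((p.1 : Sz (th : F →+* F))⁻¹ * (g * (p.2 : Sz (th : F →+* F)))) := by
        funext g
        rw [htl, mul_assoc]
      rw [e2]
      exact e1
    · intro b g
      rw [htl, htl, ← hf1]
      congr 1
      simp only [← mul_assoc]
      rw [hcen']
    · intro b g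
      rw [htl, htl, ← hf2]
      congr 1
      simp only [mul_assoc]
      rw [hcen]
  -- the trace of a conjugate
  have hmul : ∀ p q : UU F × UU F, (tl (X := Sz (th : F →+* F)) (p * q)).restrict (hinv (p * q)) =
      (tl p).restrict (hinv p) * (tl q).restrict (hinv q) := by
    intro p q
    apply LinearMap.ext
    rintro ⟨f, hf⟩
    apply Subtype.ext
    funext g
    change tl (p * q) f g = tl p (tl q f) g
    rw [htl, htl, htl]
    simp [mul_assoc]
  have hone : (tl (X := Sz (th : F →+* F)) (1 : UU F × UU F)).restrict (hinv 1) = 1 := by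
    apply LinearMap.ext
    rintro ⟨f, hf⟩
    apply Subtype.ext
    funext g
    change tl 1 f g = f g
    rw [htl]
    simp
  have hconj : ∀ p t : UU F × UU F, LinearMap.trace ℂ V ((tl (t * p * t⁻¹)).restrict (hinv (t * p * t⁻¹))) =
      LinearMap.trace ℂ V ((tl p).restrict (hinv p)) := by
    intro p t
    rw [hmul, hmul, LinearMap.trace_mul_comm, ← mul_assoc, ← hmul, inv_mul_cancel, hone, one_mul]
  have hz1 : ∀ (p : UU F × UU F) (c : F) (t : UU F × UU F) (χ : ℂ), χ ≠ 1 →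
      (∀ f ∈ V, tl (t * p * t⁻¹) f = χ • tl p f) →
      LinearMap.trace ℂ V ((tl p).restrict (hinv p)) = 0 := by
    intro p c t χ hχ hf
    have e1 : (tl (X := Sz (th : F →+* F)) (t * p * t⁻¹)).restrict (hinv (t * p * t⁻¹)) =
        χ • (tl p).restrict (hinv p) := by
      apply LinearMap.ext
      rintro ⟨f, hfV⟩
      apply Subtype.ext
      exact hf f hfV
    have e2 := hconj p t
    rw [e1, map_smul, smul_eq_mul] at e2
    have e3 : (χ - 1) * LinearMap.trace ℂ V ((tl p).restrict (hinv p)) = 0 := by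
      linear_combination e2
    exact (mul_eq_zero.1 e3).resolve_left (sub_ne_zero.2 hχ)
  obtain ⟨R, hRdef⟩ : ∃ R : Set (UU F × UU F), R = {p | ((eU F).symm p.1).1 ∈ Rad ψ1 ∧
      ((eU F).symm p.2).1 ∈ Rad ψ2} := ⟨_, rfl⟩
  have hR : ∀ p ∉ R, LinearMap.trace ℂ V ((tl p).restrict (hinv p)) = 0 := by
    rintro ⟨u, v⟩ hp
    obtain ⟨⟨a, b⟩, rfl⟩ := (eU F).surjective u
    obtain ⟨⟨a', b'⟩, rfl⟩ := (eU F).surjective v
    rw [hRdef] at hp
    simp only [Set.mem_ofPred_eq, Equiv.symm_apply_apply, not_and_or] at hp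
    rcases hp with hp | hp
    · simp only [Rad, Set.mem_ofPred_eq, not_forall] at hp
      obtain ⟨c, hc⟩ := hp
      refine hz1 _ c (eU F (c, 0), 1) (ψ1 (th a * c + th c * a)) hc ?_
      intro f hf
      rw [hVm] at hf
      funext g
      rw [Pi.smul_apply, smul_eq_mul, htl, htl, ← hf.2.1]
      congr 1
      have e1 : ((((eU F (c, 0), 1) * (eU F (a, b), eU F (a', b')) * (eU F (c, 0), 1)⁻¹ :
          UU F × UU F)).1 : Sz (th : F →+* F)) = sS 0 (th a * c + th c * a) * sS a b := by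
        rw [← comm_left]
        rfl
      have e2 : ((((eU F (c, 0), 1) * (eU F (a, b), eU F (a', b')) * (eU F (c, 0), 1)⁻¹ :
          UU F × UU F)).2 : Sz (th : F →+* F)) = sS a' b' := by
        change ((1 : UU F) : Sz (th : F →+* F)) * sS a' b' * ((1 : UU F)⁻¹ : UU F) = _
        simp
      rw [e1, e2, mul_inv_rev, inv_self', eU_val, eU_val]
      simp only [← mul_assoc]
      have e3 := hcen' (eU F (a, b)) (th a * c + th c * a)
      rw [eU_val] at e3
      rw [e3]
    · simp only [Rad, Set.mem_ofPred_eq, not_forall] at hp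
      obtain ⟨c, hc⟩ := hp
      refine hz1 _ c (1, eU F (c, 0)) (ψ2 (th a' * c + th c * a')) hc ?_
      intro f hf
      rw [hVm] at hf
      funext g
      rw [Pi.smul_apply, smul_eq_mul, htl, htl, ← hf.2.2]
      congr 1
      have e1 : ((((1, eU F (c, 0)) * (eU F (a, b), eU F (a', b')) * (1, eU F (c, 0))⁻¹ :
          UU F × UU F)).2 : Sz (th : F →+* F)) = sS 0 (th a' * c + th c * a') * sS a' b' := by
        rw [← comm_left]
        rfl
      have e2 : ((((1, eU F (c, 0)) * (eU F (a, b), eU F (a', b')) * (1, eU F (c, 0))⁻¹ :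
          UU F × UU F)).1 : Sz (th : F →+* F)) = sS a b := by
        change ((1 : UU F) : Sz (th : F →+* F)) * sS a b * ((1 : UU F)⁻¹ : UU F) = _
        simp
      rw [e1, e2, eU_val, eU_val, cen0]
      simp only [mul_assoc]
  have hfin : Finite (UU F × UU F) := inferInstance
  have hmain := trl V h hinv R hR
  have hcU : Nat.card (UU F) = Nat.card F * Nat.card F := by
    rw [← Nat.card_congr (eU F), Nat.card_prod]
  have hcP : Nat.card (UU F × UU F) = (Nat.card F * Nat.card F) * (Nat.card F * Nat.card F) := by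
    rw [Nat.card_prod, hcU]
  have hcR : Nat.card R ≤ (2 * Nat.card F) * (2 * Nat.card F) := by
    have e1 : R = (Prod.map (eU F) (eU F)) '' ((Rad ψ1 ×ˢ (Set.univ : Set F)) ×ˢ
        (Rad ψ2 ×ˢ (Set.univ : Set F))) := by
      ext ⟨u, v⟩
      obtain ⟨⟨a, b⟩, rfl⟩ := (eU F).surjective u
      obtain ⟨⟨a', b'⟩, rfl⟩ := (eU F).surjective v
      rw [hRdef]
      simp only [Set.mem_ofPred_eq, Equiv.symm_apply_apply]
      constructor
      · rintro ⟨h3, h4⟩
        exact ⟨((a, b), (a', b')), ⟨⟨h3, trivial⟩, ⟨h4, trivial⟩⟩, rfl⟩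
      · rintro ⟨⟨⟨c, d⟩, ⟨c', d'⟩⟩, ⟨⟨h3, -⟩, ⟨h4, -⟩⟩, h5⟩
        have h6 := Prod.ext_iff.1 h5
        have h7 := (eU F).injective h6.1
        have h8 := (eU F).injective h6.2
        have h9 := (Prod.ext_iff.1 h7).1
        have h10 := (Prod.ext_iff.1 h8).1
        simp only at h9 h10
        rw [← h9, ← h10]
        exact ⟨h3, h4⟩
    rw [Nat.card_coe_set_eq, e1]
    refine (Set.ncard_image_le (Set.toFinite _)).trans ?_
    rw [Set.ncard_prod, Set.ncard_prod, Set.ncard_prod, Set.ncard_univ]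
    exact Nat.mul_le_mul (Nat.mul_le_mul_right _ (rad_card h1)) (Nat.mul_le_mul_right _ (rad_card h2))
  rw [hcP] at hmain
  have hq : 0 < Nat.card F := Nat.card_pos
  have h3 : (Nat.card F * Nat.card F) * (Nat.card F * Nat.card F) ≤
      ((2 * Nat.card F) * (2 * Nat.card F)) * Module.finrank ℂ V ^ 2 :=
    hmain.trans (Nat.mul_le_mul_right _ hcR)
  have h4 : (Nat.card F * Nat.card F) * (Nat.card F ^ 2) ≤
      (Nat.card F * Nat.card F) * (2 * Module.finrank ℂ V) ^ 2 := by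
    calc (Nat.card F * Nat.card F) * (Nat.card F ^ 2) =
        (Nat.card F * Nat.card F) * (Nat.card F * Nat.card F) := by ring
      _ ≤ ((2 * Nat.card F) * (2 * Nat.card F)) * Module.finrank ℂ V ^ 2 := h3
      _ = (Nat.card F * Nat.card F) * (2 * Module.finrank ℂ V) ^ 2 := by ring
  have h5 := Nat.le_of_mul_le_mul_left h4 (Nat.mul_pos hq hq)
  exact (Nat.pow_le_pow_iff_left (by norm_num)).1 h5

end Pool.Agent.SZT

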