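import Pool.Agent.SZT.P1
import Pool.Agent.SZT.P2
import Pool.Agent.SZT.P3
import Pool.Agent.SZT.P4
import Pool.Agent.SZT.NC
import Pool.Agent.SZT.Dsum

/-! SZT / Dim: the dimension of a two-sided invariant space (helper46). -/

set_option autoImplicit false

namespace Pool.Agent.SZT

open Pool.Agent.SZQ Pool.Agent.SZQ.Inst Pool.Agent.Helper8.SUZ

section
variable {F : Type} [Field F] [Finite F] [Tits F]

/-- the centre of `U` -/
private def dimZ (F : Type) [Field F] [Tits F] : Subgroup (Sz (th : F →+* F)) where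
  carrier := {g | ∃ b, g = sS 0 b}
  mul_mem' := by
    rintro _ _ ⟨a, rfl⟩ ⟨b, rfl⟩
    exact ⟨a + b + th 0 * 0, by rw [sS_mul, zero_add]⟩
  one_mem' := ⟨0, sS_zero.symm⟩
  inv_mem' := by
    rintro _ ⟨a, rfl⟩
    exact ⟨_, sS_inv 0 a⟩

private theorem dim_sum {f : Sz (th : F →+* F) → ℂ} [Fintype F] :
    ∑ᶠ z : dimZ F, f (z : Sz (th : F →+* F)) = ∑ b : F, f (sS 0 b) := by
  rw [← finsum_eq_sum_of_fintype]
  symm
  exact finsum_eq_of_bijective (fun b : F => (⟨sS 0 b, ⟨b, rfl⟩⟩ : dimZ F))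
    ⟨fun b b' h => (sS_inj (congrArg Subtype.val h)).2, fun u => by
      obtain ⟨_, b, rfl⟩ := u
      exact ⟨b, rfl⟩⟩ (fun b => rfl)

variable [Fintype (Sz (th : F →+* F))]

/-- module Dim -/
theorem dimE (hF : 8 ≤ Nat.card F) (E : Submodule ℂ (Sz (th : F →+* F) → ℂ)) (h0 : E ≠ ⊥)
    (hE : Inv E) : (Nat.card F - 1) ^ 2 * (Nat.card F / 2) ≤ Module.finrank ℂ E := by
  have : Fintype F := Fintype.ofFinite F
  have hZ : Subgroup.normalClosure (dimZ F : Set (Sz (th : F →+* F))) = ⊤ :=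
    nc hF _ fun b => Subgroup.subset_normalClosure ⟨b, rfl⟩
  obtain ⟨f0, hf0E, hf0, h1, h2⟩ := p1 (dimZ F) hZ E h0 hE
  obtain ⟨ψ1, ψ2, hψ1, hψ2, f, hfE, hf, h3, h4⟩ := p2 (fun b : F => (sS 0 b : Sz (th : F →+* F)))
    (fun b c => by rw [sS_mul]; congr 1 <;> simp) E hE f0 hf0E hf0
    (fun g => by rw [← dim_sum (f := fun z => f0 (z * g))]; exact h1 g)
    (fun g => by rw [← dim_sum (f := fun z => f0 (g * z))]; exact h2 g)
  have hne : E ⊓ TyS ψ1 ψ2 ≠ ⊥ := by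
    rw [Submodule.ne_bot_iff]
    exact ⟨f, ⟨hfE, h3, h4⟩, hf⟩
  apply dsum
  intro ψ1' ψ2' h1' h2'
  have h5 := p4 E hE ψ1' ψ2' h1' h2' (p3 E hE ψ1 ψ2 ψ1' ψ2' hψ1 hψ2 h1' h2' hne)
  omega

end

end Pool.Agent.SZT
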