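import Pool.Agent.SZT.Spec
import Pool.Agent.SZT.Dim
import Pool.Agent.SZT.CX
import Pool.Agent.SZT.CZ1
import Pool.Agent.SZT.CZ2

/-! Twisted cosets of the Suzuki groups, fixed field `F_2`: the main theorem (helper44). -/

set_option autoImplicit false

namespace Pool.Agent.SZT

open Pool.Agent.SZQ Pool.Agent.SZQ.Inst Pool.Agent.Helper8.SUZ

theorem odd_el {F : Type} [Field F] [Finite F] {n : ℕ} (hF : Nat.card F = 2 ^ (2 * n + 1))
    (σ : F ≃+* F) (a : F) (h : σ (σ a) = a) : σ a = a := by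
  have := Fintype.ofFinite F
  have h2 : (2 : F) = 0 := by
    have h := FiniteField.cast_card_eq_zero F
    rw [← Nat.card_eq_fintype_card, hF] at h
    push_cast at h
    exact (pow_eq_zero_iff (Nat.succ_ne_zero _)).1 h
  have hchar : CharP F 2 := CharTwo.of_one_ne_zero_of_two_eq_zero one_ne_zero h2
  let _ : Algebra (ZMod 2) F := ZMod.algebra F 2
  have hfr : Module.finrank (ZMod 2) F = 2 * n + 1 := by
    have h3 := Module.natCard_eq_pow_finrank (K := ZMod 2) (V := F)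
    rw [hF, Nat.card_zmod] at h3
    exact (Nat.pow_right_injective (le_refl 2) h3).symm
  let τ : F ≃ₐ[ZMod 2] F := AlgEquiv.ofRingEquiv (f := σ) (fun r => by
    obtain ⟨r, rfl⟩ := ZMod.natCast_zmod_surjective r
    simp)
  have hτ : ∀ a, τ a = σ a := fun a => rfl
  have hcard : Nat.card (F ≃ₐ[ZMod 2] F) = 2 * n + 1 := by
    rw [← hfr]
    exact IsGalois.card_aut_eq_finrank (ZMod 2) F
  have hp : τ ^ (2 * n + 1) = 1 := by
    rw [← hcard]
    exact pow_card_eq_one'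
  have hev : ∀ k : ℕ, (τ ^ (2 * k)) a = a := by
    intro k
    induction k with
    | zero => simp
    | succ k ih =>
      rw [show 2 * (k + 1) = 2 * k + 2 by ring, pow_add, AlgEquiv.mul_apply, pow_two,
        AlgEquiv.mul_apply, hτ, hτ, h, ih]
  have h5 : (τ ^ (2 * n + 1)) a = a := by rw [hp, AlgEquiv.one_apply]
  rw [pow_succ', AlgEquiv.mul_apply, hev n, hτ] at h5
  exact h5

section
variable {F : Type} [Field F] [Finite F] [Tits F] {σ : F ≃+* F}
  {φ : Sz (th : F →+* F) ≃* Sz (th : F →+* F)}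

theorem FAut.sq (hφ : FAut σ φ) : FAut (σ.trans σ) (φ.trans φ) := by
  obtain ⟨h1, h2, h3⟩ := hφ
  refine ⟨fun a b => ?_, fun m => ?_, ?_⟩
  · rw [MulEquiv.trans_apply, h1, h1]
    rfl
  · rw [MulEquiv.trans_apply, h2, h2]
    rfl
  · rw [MulEquiv.trans_apply, h3, h3]

theorem szt {n : ℕ} (hn : 1 ≤ n) (hF : Nat.card F = 2 ^ (2 * n + 1)) (hφ : FAut σ φ) (h2 : F2 σ)
    (z : Sz (th : F →+* F)) :
    ∃ k l : Sz (th : F →+* F), z = (k * sS 1 0 * (φ k)⁻¹) * φ (l * sS 1 0 * (φ l)⁻¹) := by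
  classical
  have hfin : Finite (GG F) := by unfold GG; infer_instance
  have := Fintype.ofFinite (Sz (th : F →+* F))
  have h4 : F2 (σ.trans σ) := fun a ha => h2 a (odd_el hF σ a ha)
  have h8 : F2 ((σ.trans σ).trans (σ.trans σ)) :=
    fun a ha => h4 a (odd_el hF (σ.trans σ) a ha)
  have hq8 : 8 ≤ Nat.card F := by
    rw [hF]
    calc 8 = 2 ^ 3 := by norm_num
      _ ≤ 2 ^ (2 * n + 1) := Nat.pow_le_pow_right (by norm_num) (by omega)
  have hφ2 := hφ.sq
  set r := 2 ^ (2 * n) with hr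
  have hqr : Nat.card F = 2 * r := by rw [hF, pow_succ, hr]; ring
  have hx := cx hφ h2 h4
  have hdim : ∀ E : Submodule ℂ (Sz (th : F →+* F) → ℂ), E ≠ ⊥ → Inv E →
      (Nat.card F - 1) ^ 2 * (Nat.card F / 2) ≤ Module.finrank ℂ E :=
    fun E h0 hE => dimE hq8 E h0 hE
  have hcz : ∃ cz : ℕ,
      Nat.card {k : Sz (th : F →+* F) // k * z * (φ (φ k))⁻¹ = z} ≤ cz ∧
      (4 - 1) ^ 2 * cz < (Nat.card F - 1) ^ 2 * (Nat.card F / 2) := by
    have hhalf : Nat.card F / 2 = r := by rw [hqr]; omega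
    rcases Nat.lt_or_ge n 2 with hn2 | hn2
    · have hn1 : n = 1 := by omega
      have hr4 : r = 4 := by rw [hr, hn1]; norm_num
      have hq : Nat.card F = 8 := by rw [hqr, hr4]
      refine ⟨20, ?_, by rw [hhalf, hr4, hq]; norm_num⟩
      by_cases hz : ∃ (g : Sz (th : F →+* F)) (a b : F) (m : Fˣ),
          g⁻¹ * z * (φ.trans φ) g = sS a b * sM m
      · exact cz1 hq8 hφ2 h4 z hz
      · push Not at hz
        exact (cz2 hq8 hφ2 h4 h8 z hz).2 hq
    · have hr16 : 16 ≤ r := by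
        rw [hr]
        calc 16 = 2 ^ 4 := by norm_num
          _ ≤ 2 ^ (2 * n) := Nat.pow_le_pow_right (by norm_num) (by omega)
      refine ⟨Nat.card F ^ 2 + 1, ?_, ?_⟩
      · by_cases hz : ∃ (g : Sz (th : F →+* F)) (a b : F) (m : Fˣ),
            g⁻¹ * z * (φ.trans φ) g = sS a b * sM m
        · refine (cz1 hq8 hφ2 h4 z hz).trans ?_
          nlinarith
        · push Not at hz
          exact (cz2 hq8 hφ2 h4 h8 z hz).1
      · rw [hhalf, hqr]
        obtain ⟨t, ht⟩ := Nat.exists_eq_add_of_le hr16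
        rw [ht]
        have e : 2 * (16 + t) - 1 = 31 + 2 * t := by omega
        rw [e]
        nlinarith [Nat.zero_le t, sq_nonneg t, Nat.zero_le (t ^ 3)]
  obtain ⟨cz, h5, h6⟩ := hcz
  exact spec _ hdim φ (sS 1 0) z 4 cz (by norm_num) hx h5 h6

end

end Pool.Agent.SZT
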