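import Pool.Agent.SZQ.CstF
import Pool.Agent.SZT.Main
import Pool.Agent.SZA.Asm

/-! Cosets of the Suzuki groups, every field automorphism: `(x^G)² = α² G`. -/

set_option autoImplicit false

namespace Pool.Agent.SZT

open Pool.Agent.SZQ Pool.Agent.SZQ.Inst Pool.Agent.Helper8.SUZ
open scoped Pointwise

theorem sz_tw_all {F : Type} [Field F] [Finite F] [Tits F] {n : ℕ} (hn : 1 ≤ n)
    (hF : Nat.card F = 2 ^ (2 * n + 1)) (σ : F ≃+* F) (hc : ∀ x, σ (th x) = th (σ x))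
    (φ : Sz (th : F →+* F) ≃* Sz (th : F →+* F))
    (hS : ∀ a b, φ (sS a b) = sS (σ a) (σ b))
    (hM : ∀ m : Fˣ, φ (sM m) = sM (Units.map (σ : F →* F) m)) (hW : φ sW = sW)
    (hU : ∀ u, φ u ∈ UU F ↔ u ∈ UU F) :
    ∃ t : Sz (th : F →+* F), ∀ g, Tw φ t g := by
  by_cases hσ : ∃ a : F, a ≠ 0 ∧ a ≠ 1 ∧ σ a = a
  · exact sz_tw hn hF σ hc hσ φ hS hM hW hU
  · push Not at hσ
    refine ⟨sS 1 0, fun g => ?_⟩
    have h2 : F2 σ := by
      intro a ha
      by_contra hcon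
      rw [not_or] at hcon
      exact hσ a hcon.1 hcon.2 ha
    obtain ⟨k, l, h⟩ := szt hn hF ⟨hS, hM, hW⟩ h2 g
    exact ⟨k, l, h.symm⟩

theorem sz_coset_all' {F : Type} [Field F] [Finite F] [Tits F] {n : ℕ} (hn : 1 ≤ n)
    (hF : Nat.card F = 2 ^ (2 * n + 1)) (σ : F ≃+* F) (hc : ∀ x, σ (th x) = th (σ x))
    (f : F → F) (hf : f = (th : F →+* F)) (A : Sz f) (α : MulAut (Sz f))
    (hα : ∀ g : Sz f, ((α g : Sz f) : GL (Fin 4) F) =
        (A : GL (Fin 4) F) * Matrix.GeneralLinearGroup.map (σ : F →+* F) (g : GL (Fin 4) F) *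
          (A : GL (Fin 4) F)⁻¹) :
    ∃ x : MulAut (Sz f), (∃ g : Sz f, x = α * MulAut.conj g) ∧
      {y | ∃ g : Sz f, y = (MulAut.conj g)⁻¹ * x * MulAut.conj g} *
        {y | ∃ g : Sz f, y = (MulAut.conj g)⁻¹ * x * MulAut.conj g} =
        {y | ∃ g : Sz f, y = α ^ 2 * MulAut.conj g} := by
  subst hf
  obtain ⟨φ, h0, hS, hM, hW, hU⟩ := szAut σ hc
  obtain ⟨t, ht⟩ := sz_tw_all hn hF σ hc φ hS hM hW hU
  refine coset_of_tw φ α A ?_ t ht
  ext1 g
  apply Subtype.ext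
  rw [hα, MulAut.mul_apply, MulAut.conj_apply]
  change _ = (A : GL (Fin 4) F) * ((φ g : Sz (th : F →+* F)) : GL (Fin 4) F) *
    (A : GL (Fin 4) F)⁻¹
  rw [h0]

theorem sz_every' {F : Type} [Field F] [Finite F] [Tits F] {n : ℕ} (hn : 1 ≤ n)
    (hF : Nat.card F = 2 ^ (2 * n + 1)) (hc : ∀ (τ : F ≃+* F) (x : F), τ (th x) = th (τ x))
    (f : F → F) (hf : f = (th : F →+* F)) (α : MulAut (Sz f)) :
    ∃ x : MulAut (Sz f), (∃ g : Sz f, x = α * MulAut.conj g) ∧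
      {y | ∃ g : Sz f, y = (MulAut.conj g)⁻¹ * x * MulAut.conj g} *
        {y | ∃ g : Sz f, y = (MulAut.conj g)⁻¹ * x * MulAut.conj g} =
        {y | ∃ g : Sz f, y = α ^ 2 * MulAut.conj g} := by
  subst hf
  have hq : 8 ≤ Nat.card F := by
    rw [hF]
    calc 8 = 2 ^ 3 := by norm_num
      _ ≤ 2 ^ (2 * n + 1) := Nat.pow_le_pow_right (by norm_num) (by omega)
  have hev : Even (Nat.card F) := by
    rw [hF, pow_succ]
    exact even_two.mul_left _
  obtain ⟨σ, A, h⟩ := SZA.every_aut hq hev hc α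
  exact sz_coset_all' hn hF σ (hc σ) _ rfl A α h

theorem sz_every {F : Type} [Field F] [Finite F] {n : ℕ} (hn : 1 ≤ n)
    (hF : Nat.card F = 2 ^ (2 * n + 1)) (α : MulAut (Sz (fun x : F => x ^ (2 ^ (n + 1))))) :
    ∃ x : MulAut (Sz (fun x : F => x ^ (2 ^ (n + 1)))),
      (∃ g : Sz (fun x : F => x ^ (2 ^ (n + 1))), x = α * MulAut.conj g) ∧
      {y | ∃ g : Sz (fun x : F => x ^ (2 ^ (n + 1))),
          y = (MulAut.conj g)⁻¹ * x * MulAut.conj g} *
        {y | ∃ g : Sz (fun x : F => x ^ (2 ^ (n + 1))),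
          y = (MulAut.conj g)⁻¹ * x * MulAut.conj g} =
        {y | ∃ g : Sz (fun x : F => x ^ (2 ^ (n + 1))), y = α ^ 2 * MulAut.conj g} := by
  have : CharP F 2 := char_two hF
  have : Fintype F := Fintype.ofFinite F
  let _ : Tits F :=
    { th := iterateFrobenius F 2 (n + 1)
      sq := fun x => by
        have h1 : x ^ (2 ^ (2 * n + 1)) = x := by
          have h2 := FiniteField.pow_card x
          rwa [← Nat.card_eq_fintype_card, hF] at h2
        rw [iterateFrobenius_def, iterateFrobenius_def, ← pow_mul, ← pow_add,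
          show n + 1 + (n + 1) = 2 * n + 1 + 1 by ring, pow_succ, pow_mul, h1] }
  exact sz_every' hn hF (fun τ x => map_pow τ x _) _ (funext fun x => rfl) α

end Pool.Agent.SZT
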