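import Pool.Agent.SZT.Defs

/-!
# SZT / Gap: the spectral gap (helper92)

`A = T^* T - (s^2 / |G|) J` is Hermitian, kills the constants, and commutes with left and right translations. An eigenspace of `A` for an
eigenvalue `c ≠ 0` is `Inv`, so `c` has multiplicity `≥ m`; the eigenvalues are `≥ 0` (`<v, A v> = |T v|^2` if `Σ v = 0`), so `m c ≤ tr A`.
-/

set_option autoImplicit false

namespace Pool.Agent.SZT

set_option linter.unusedSectionVars false

section
variable {G : Type} [Group G] [Fintype G]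

/-- the matrix of `T^* T` minus its value on the constants -/
private noncomputable def gapM (K : G → G → ℝ) (s : ℝ) : Matrix G G ℂ :=
  Matrix.of fun h₁ h₂ => ((∑ h', K h' h₁ * K h' h₂ - s ^ 2 / Fintype.card G : ℝ) : ℂ)

private lemma gapM_herm (K : G → G → ℝ) (s : ℝ) : (gapM K s).IsHermitian := by
  ext h₁ h₂
  simp only [Matrix.conjTranspose_apply, gapM, Matrix.of_apply]
  rw [Complex.star_def, Complex.conj_ofReal]
  congr 2
  exact Finset.sum_congr rfl fun h' _ => mul_comm _ _

private lemma gapM_col (K : G → G → ℝ) (s : ℝ) (hr : ∀ h', ∑ h, K h' h = s)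
    (hc : ∀ h, ∑ h', K h' h = s) (h₂ : G) : ∑ h₁, gapM K s h₁ h₂ = 0 := by
  simp only [gapM, Matrix.of_apply]
  rw [← Complex.ofReal_sum, Finset.sum_sub_distrib, Finset.sum_comm]
  have h1 : ∑ y, ∑ x, K y x * K y h₂ = s * s := by
    simp_rw [← Finset.sum_mul, hr]
    rw [← Finset.mul_sum, hc]
  rw [h1, Finset.sum_const, Finset.card_univ, nsmul_eq_mul]
  have h2 : (Fintype.card G : ℝ) ≠ 0 := by
    exact_mod_cast Fintype.card_ne_zero
  rw [mul_div_cancel₀ _ h2]
  norm_num
  ring

private lemma gapM_mulVec (K : G → G → ℝ) (s : ℝ) (v : G → ℂ) (hv : ∑ g, v g = 0) (h₁ : G) :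
    (gapM K s).mulVec v h₁ = ∑ h', (K h' h₁ : ℂ) * ∑ h, (K h' h : ℂ) * v h := by
  simp only [Matrix.mulVec, dotProduct, gapM, Matrix.of_apply]
  push_cast
  simp_rw [sub_mul, Finset.sum_sub_distrib, ← Finset.mul_sum, hv, mul_zero, sub_zero,
    Finset.sum_mul, Finset.mul_sum]
  rw [Finset.sum_comm]
  refine Finset.sum_congr rfl fun h' _ => Finset.sum_congr rfl fun h _ => ?_
  ring

private lemma gapM_left (K : G → G → ℝ) (s : ℝ)
    (hL : ∀ k h' h, K (k * h') (k * h) = K h' h) (k h₁ h₂ : G) :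
    gapM K s (k * h₁) (k * h₂) = gapM K s h₁ h₂ := by
  simp only [gapM, Matrix.of_apply]
  congr 2
  rw [← Equiv.sum_comp (Equiv.mulLeft k) fun h' => K h' (k * h₁) * K h' (k * h₂)]
  refine Finset.sum_congr rfl fun h' _ => ?_
  simp only [Equiv.coe_mulLeft, hL]

private lemma gapM_right (φ : G ≃* G) (K : G → G → ℝ) (s : ℝ)
    (hR : ∀ k h' h, K (h' * φ k) (h * k) = K h' h) (k h₁ h₂ : G) :
    gapM K s (h₁ * k) (h₂ * k) = gapM K s h₁ h₂ := by
  simp only [gapM, Matrix.of_apply]
  congr 2
  rw [← Equiv.sum_comp (Equiv.mulRight (φ k)) fun h' => K h' (h₁ * k) * K h' (h₂ * k)]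
  refine Finset.sum_congr rfl fun h' _ => ?_
  simp only [Equiv.coe_mulRight, hR]

/-- eigenvectors for a nonzero eigenvalue have sum zero -/
private lemma gapM_sum (K : G → G → ℝ) (s : ℝ) (hr : ∀ h', ∑ h, K h' h = s)
    (hc : ∀ h, ∑ h', K h' h = s) (c : ℂ) (hc0 : c ≠ 0) (v : G → ℂ)
    (hv : (gapM K s).mulVec v = c • v) : ∑ g, v g = 0 := by
  have h1 : ∑ g, (gapM K s).mulVec v g = 0 := by
    simp only [Matrix.mulVec, dotProduct]
    rw [Finset.sum_comm]
    refine Finset.sum_eq_zero fun h _ => ?_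
    rw [← Finset.sum_mul, gapM_col K s hr hc, zero_mul]
  rw [hv] at h1
  simp only [Pi.smul_apply, smul_eq_mul] at h1
  rw [← Finset.mul_sum] at h1
  exact (mul_eq_zero.1 h1).resolve_left hc0

/-- the eigenspace -/
private def gapE (A : Matrix G G ℂ) (c : ℂ) : Submodule ℂ (G → ℂ) where
  carrier := {v | A.mulVec v = c • v}
  add_mem' := by
    intro a b ha hb
    simp only [Set.mem_ofPred_eq] at *
    rw [Matrix.mulVec_add, ha, hb, smul_add]
  zero_mem' := by simp
  smul_mem' := by
    intro a b hb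
    simp only [Set.mem_ofPred_eq] at *
    rw [Matrix.mulVec_smul, hb, smul_comm]

private lemma gapE_inv (φ : G ≃* G) (K : G → G → ℝ) (s : ℝ) (hr : ∀ h', ∑ h, K h' h = s)
    (hc : ∀ h, ∑ h', K h' h = s) (hL : ∀ k h' h, K (k * h') (k * h) = K h' h)
    (hR : ∀ k h' h, K (h' * φ k) (h * k) = K h' h) (c : ℂ) (hc0 : c ≠ 0) :
    Inv (gapE (gapM K s) c) where
  zero f hf := gapM_sum K s hr hc c hc0 f hf
  left f hf k := by
    have hf' : (gapM K s).mulVec f = c • f := hf
    show (gapM K s).mulVec (fun g => f (k * g)) = c • fun g => f (k * g)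
    funext h₁
    have h1 := congrFun hf' (k * h₁)
    simp only [Matrix.mulVec, dotProduct, Pi.smul_apply] at h1 ⊢
    rw [← h1, ← Equiv.sum_comp (Equiv.mulLeft k) (fun h => gapM K s (k * h₁) h * f h)]
    refine Finset.sum_congr rfl fun h _ => ?_
    simp only [Equiv.coe_mulLeft, gapM_left K s hL]
  right f hf k := by
    have hf' : (gapM K s).mulVec f = c • f := hf
    show (gapM K s).mulVec (fun g => f (g * k)) = c • fun g => f (g * k)
    funext h₁
    have h1 := congrFun hf' (h₁ * k)
    simp only [Matrix.mulVec, dotProduct, Pi.smul_apply] at h1 ⊢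
    rw [← h1, ← Equiv.sum_comp (Equiv.mulRight k) (fun h => gapM K s (h₁ * k) h * f h)]
    refine Finset.sum_congr rfl fun h _ => ?_
    simp only [Equiv.coe_mulRight, gapM_right φ K s hR]

/-- module Gap -/
theorem gap (m : ℕ)
    (hdim : ∀ E : Submodule ℂ (G → ℂ), E ≠ ⊥ → Inv E → m ≤ Module.finrank ℂ E)
    (φ : G ≃* G) (K : G → G → ℝ) (s : ℝ) (hr : ∀ h', ∑ h, K h' h = s) (hc : ∀ h, ∑ h', K h' h = s)
    (hL : ∀ k h' h, K (k * h') (k * h) = K h' h) (hR : ∀ k h' h, K (h' * φ k) (h * k) = K h' h)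
    (f : G → ℝ) (hf : ∑ h, f h = 0) :
    m * ∑ h', (∑ h, K h' h * f h) ^ 2 ≤ (∑ h', ∑ h, K h' h ^ 2 - s ^ 2) * ∑ h, f h ^ 2 := by
  classical
  set A := gapM K s with hAdef
  have hA : A.IsHermitian := gapM_herm K s
  set T : EuclideanSpace ℂ G →ₗ[ℂ] EuclideanSpace ℂ G := Matrix.toEuclideanLin A with hTdef
  have hT : T.IsSymmetric := Matrix.isHermitian_iff_isSymmetric.1 hA
  set b := hA.eigenvectorBasis with hb
  have hTx : ∀ x : EuclideanSpace ℂ G, ∀ g, T x g = A.mulVec (fun i => x i) g := fun x g => rfl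
  have hev : ∀ j, A.mulVec (fun i => b j i) = (hA.eigenvalues j : ℂ) • fun i => b j i := by
    intro j
    have h1 := hA.mulVec_eigenvectorBasis j
    have h2 : (fun i => b j i) = ⇑(hA.eigenvectorBasis j) := rfl
    rw [h2, h1]
    funext i
    simp
  have hTb : ∀ j, T (b j) = (hA.eigenvalues j : ℂ) • b j := by
    intro j
    ext g
    rw [hTx, hev]
    rfl
  -- the quadratic form
  have hquad : ∀ x : EuclideanSpace ℂ G, ∑ g, x g = 0 →
      inner ℂ x (T x) = ((∑ h', ‖∑ h, (K h' h : ℂ) * x h‖ ^ 2 : ℝ) : ℂ) := by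
    intro x hx
    rw [PiLp.inner_apply]
    have h1 : ∀ g, inner ℂ (x g) (T x g) =
        ∑ h', (starRingEnd ℂ ((K h' g : ℂ) * x g)) * ∑ h, (K h' h : ℂ) * x h := by
      intro g
      rw [hTx, gapM_mulVec K s _ hx, RCLike.inner_apply, Finset.sum_mul]
      refine Finset.sum_congr rfl fun h' _ => ?_
      rw [map_mul, Complex.conj_ofReal]
      ring
    rw [Finset.sum_congr rfl fun g _ => h1 g, Finset.sum_comm]
    push_cast
    refine Finset.sum_congr rfl fun h' _ => ?_
    rw [← Finset.sum_mul, ← map_sum, ← Complex.normSq_eq_conj_mul_self, Complex.normSq_eq_norm_sq]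
    push_cast
    rfl
  have hspec : ∀ x : EuclideanSpace ℂ G,
      inner ℂ x (T x) = ((∑ j, hA.eigenvalues j * ‖inner ℂ (b j) x‖ ^ 2 : ℝ) : ℂ) := by
    intro x
    rw [← b.sum_inner_mul_inner]
    push_cast
    refine Finset.sum_congr rfl fun j _ => ?_
    rw [← hT (b j) x, hTb, inner_smul_left, Complex.conj_ofReal, ← inner_conj_symm x (b j)]
    have h1 : (starRingEnd ℂ) (inner ℂ (b j) x) * inner ℂ (b j) x =
        ((‖inner ℂ (b j) x‖ : ℂ)) ^ 2 := by
      rw [← Complex.normSq_eq_conj_mul_self, Complex.normSq_eq_norm_sq]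
      push_cast
      rfl
    rw [← h1]
    ring
  -- eigenvalues are nonnegative
  have hsum0 : ∀ j, hA.eigenvalues j ≠ 0 → ∑ g, b j g = 0 := by
    intro j hj
    exact gapM_sum K s hr hc _ (by exact_mod_cast hj) _ (hev j)
  have hnn : ∀ j, 0 ≤ hA.eigenvalues j := by
    intro j
    by_cases hj : hA.eigenvalues j = 0
    · rw [hj]
    · have h1 := hquad (b j) (hsum0 j hj)
      rw [hTb, inner_smul_right, inner_self_eq_norm_sq_to_K, b.norm_eq_one] at h1
      have h2 : (hA.eigenvalues j : ℂ) = ((∑ h', ‖∑ h, (K h' h : ℂ) * b j h‖ ^ 2 : ℝ) : ℂ) := by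
        rw [← h1]
        simp
      have h3 : hA.eigenvalues j = ∑ h', ‖∑ h, (K h' h : ℂ) * b j h‖ ^ 2 := by exact_mod_cast h2
      rw [h3]
      positivity
  -- the trace
  have htr : ∑ j, hA.eigenvalues j = ∑ h', ∑ h, K h' h ^ 2 - s ^ 2 := by
    have h1 := hA.trace_eq_sum_eigenvalues
    have h2 : A.trace = ((∑ h', ∑ h, K h' h ^ 2 - s ^ 2 : ℝ) : ℂ) := by
      simp only [Matrix.trace, Matrix.diag_apply, hAdef, gapM, Matrix.of_apply]
      rw [← Complex.ofReal_sum, Finset.sum_sub_distrib, Finset.sum_comm, Finset.sum_const,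
        Finset.card_univ, nsmul_eq_mul]
      have h3 : (Fintype.card G : ℝ) ≠ 0 := by
        exact_mod_cast Fintype.card_ne_zero
      rw [mul_div_cancel₀ _ h3]
      congr 2
      refine Finset.sum_congr rfl fun h' _ => Finset.sum_congr rfl fun h _ => ?_
      ring
    rw [h2] at h1
    have h4 : ((∑ j, hA.eigenvalues j : ℝ) : ℂ) =
        ((∑ h', ∑ h, K h' h ^ 2 - s ^ 2 : ℝ) : ℂ) := by
      rw [h1]
      push_cast
      rfl
    exact Complex.ofReal_injective h4
  -- multiplicities
  have hmul : ∀ j, m * hA.eigenvalues j ≤ ∑ i, hA.eigenvalues i := by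
    intro j
    by_cases hj : hA.eigenvalues j = 0
    · rw [hj, mul_zero]
      exact Finset.sum_nonneg fun i _ => hnn i
    · have hj' : (hA.eigenvalues j : ℂ) ≠ 0 := by exact_mod_cast hj
      have hE0 : gapE A (hA.eigenvalues j : ℂ) ≠ ⊥ := by
        intro h0
        have h1 : (fun i => b j i) ∈ gapE A (hA.eigenvalues j : ℂ) := hev j
        rw [h0, Submodule.mem_bot] at h1
        have h2 : b j = 0 := by
          ext i
          exact congrFun h1 i
        have h3 := b.norm_eq_one j
        rw [h2, norm_zero] at h3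
        exact zero_ne_one h3
      have h1 := hdim _ hE0 (gapE_inv φ K s hr hc hL hR _ hj')
      have h2 : gapE A (hA.eigenvalues j : ℂ) ≤ Submodule.span ℂ
          (((Finset.univ.filter fun i => hA.eigenvalues i = hA.eigenvalues j).image
            fun i => (fun g => b i g) : Finset (G → ℂ)) : Set (G → ℂ)) := by
        intro v hv
        have hv' : A.mulVec v = (hA.eigenvalues j : ℂ) • v := hv
        set x : EuclideanSpace ℂ G := WithLp.toLp 2 v with hx
        have hTx' : T x = (hA.eigenvalues j : ℂ) • x := by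
          ext g
          rw [hTx]
          exact congrFun hv' g
        have h4 : ∀ i, hA.eigenvalues i ≠ hA.eigenvalues j → inner ℂ (b i) x = 0 := by
          intro i hi
          have h5 : inner ℂ (T (b i)) x = inner ℂ (b i) (T x) := hT (b i) x
          rw [hTb, hTx', inner_smul_left, inner_smul_right, Complex.conj_ofReal] at h5
          have h6 : ((hA.eigenvalues i : ℂ) - (hA.eigenvalues j : ℂ)) * inner ℂ (b i) x = 0 := by
            rw [sub_mul, h5, sub_self]
          refine (mul_eq_zero.1 h6).resolve_left fun h0 => hi ?_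
          exact_mod_cast sub_eq_zero.1 h0
        have h5 : v = ∑ i, inner ℂ (b i) x • fun g => b i g := by
          have h6 := b.sum_repr' x
          funext g
          have h7 := congrArg (fun y : EuclideanSpace ℂ G => y g) h6
          simp only at h7
          have h8 : v g = x g := rfl
          rw [h8, ← h7]
          simp [Finset.sum_apply]
        rw [h5]
        refine Submodule.sum_mem _ fun i _ => ?_
        by_cases hi : hA.eigenvalues i = hA.eigenvalues j
        · refine Submodule.smul_mem _ _ (Submodule.subset_span ?_)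
          simp only [Finset.coe_image, Set.mem_image, Finset.mem_coe, Finset.mem_filter,
            Finset.mem_univ, true_and]
          exact ⟨i, hi, rfl⟩
        · rw [h4 i hi, zero_smul]
          exact Submodule.zero_mem _
      have h3 : m ≤ (Finset.univ.filter fun i => hA.eigenvalues i = hA.eigenvalues j).card := by
        refine h1.trans ((Submodule.finrank_mono h2).trans ?_)
        exact (finrank_span_finset_le_card _).trans Finset.card_image_le
      calc (m : ℝ) * hA.eigenvalues j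
          ≤ ((Finset.univ.filter fun i => hA.eigenvalues i = hA.eigenvalues j).card : ℝ) *
            hA.eigenvalues j := mul_le_mul_of_nonneg_right (by exact_mod_cast h3) (hnn j)
        _ = ∑ i ∈ Finset.univ.filter (fun i => hA.eigenvalues i = hA.eigenvalues j),
            hA.eigenvalues i := by
            rw [← nsmul_eq_mul, ← Finset.sum_const]
            refine Finset.sum_congr rfl fun i hi => ?_
            exact (Finset.mem_filter.1 hi).2.symm
        _ ≤ ∑ i, hA.eigenvalues i :=
            Finset.sum_le_sum_of_subset_of_nonneg (Finset.filter_subset _ _) fun i _ _ => hnn i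
  -- conclusion
  set x : EuclideanSpace ℂ G := WithLp.toLp 2 fun h => (f h : ℂ) with hx
  have hx0 : ∑ g, x g = 0 := by
    have h1 : ∑ g, x g = ((∑ g, f g : ℝ) : ℂ) := by
      push_cast
      rfl
    rw [h1, hf, Complex.ofReal_zero]
  have h1 : ∑ h', (∑ h, K h' h * f h) ^ 2 = ∑ j, hA.eigenvalues j * ‖inner ℂ (b j) x‖ ^ 2 := by
    have h2 := (hquad x hx0).symm.trans (hspec x)
    have h3 : ∑ h', ‖∑ h, (K h' h : ℂ) * x h‖ ^ 2 =
        ∑ j, hA.eigenvalues j * ‖inner ℂ (b j) x‖ ^ 2 := by exact_mod_cast h2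
    rw [← h3]
    refine Finset.sum_congr rfl fun h' _ => ?_
    have h4 : ∑ h, (K h' h : ℂ) * x h = ((∑ h, K h' h * f h : ℝ) : ℂ) := by
      push_cast
      rfl
    rw [h4, Complex.norm_real, Real.norm_eq_abs, sq_abs]
  have h2 : ∑ h, f h ^ 2 = ∑ j, ‖inner ℂ (b j) x‖ ^ 2 := by
    rw [b.sum_sq_norm_inner_right, EuclideanSpace.norm_sq_eq]
    refine Finset.sum_congr rfl fun h _ => ?_
    have h4 : x h = (f h : ℂ) := rfl
    rw [h4, Complex.norm_real, Real.norm_eq_abs, sq_abs]
  rw [h1, h2, ← htr, Finset.mul_sum, Finset.mul_sum]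
  refine Finset.sum_le_sum fun j _ => ?_
  rw [← mul_assoc]
  exact mul_le_mul_of_nonneg_right (hmul j) (by positivity)

end

end Pool.Agent.SZT
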