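import Pool.Agent.SZT.Defs

/-! SZT, module P1 (helper42): a function with left and right averages zero over `Z` in an invariant space. -/

set_option autoImplicit false

namespace Pool.Agent.SZT

section
variable {G : Type} [Group G] [Fintype G]

private theorem p1_moved (Z : Subgroup G) (hZ : Subgroup.normalClosure (Z : Set G) = ⊤)
    (E : Submodule ℂ (G → ℂ)) (h0 : E ≠ ⊥) (hE : Inv E) :
    ∃ w ∈ E, ∃ z ∈ Z, ∃ g, w (z * g) ≠ w g := by
  by_contra hcon
  push Not at hcon
  apply h0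
  rw [Submodule.eq_bot_iff]
  let N : Subgroup G :=
    { carrier := {x | ∀ f ∈ E, ∀ g, f (x * g) = f g}
      one_mem' := fun f _ g => by rw [one_mul]
      mul_mem' := by
        intro x y hx hy f hf g
        rw [mul_assoc, hx f hf, hy f hf]
      inv_mem' := by
        intro x hx f hf g
        have h := hx f hf (x⁻¹ * g)
        rw [mul_inv_cancel_left] at h
        exact h.symm }
  have hN : N.Normal := by
    refine ⟨fun x hx k => ?_⟩
    intro f hf g
    have h := hx (fun g => f (k * g)) (hE.left f hf k) (k⁻¹ * g)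
    simp only [mul_inv_cancel_left] at h
    rw [← h]
    simp only [mul_assoc]
  have hle : Subgroup.normalClosure (Z : Set G) ≤ N :=
    Subgroup.normalClosure_le_normal fun z hz f hf g => hcon f hf z hz g
  rw [hZ] at hle
  intro f hf
  have hc : ∀ x, f x = f 1 := by
    intro x
    have h := hle (Subgroup.mem_top x) f hf 1
    rwa [mul_one] at h
  have hs := hE.zero f hf
  rw [Finset.sum_congr rfl fun x _ => hc x, Finset.sum_const, nsmul_eq_mul] at hs
  have hcard : ((Finset.univ : Finset G).card : ℂ) ≠ 0 := by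
    rw [Nat.cast_ne_zero]
    exact Finset.card_ne_zero.2 ⟨1, Finset.mem_univ _⟩
  have h1 : f 1 = 0 := (mul_eq_zero.1 hs).resolve_left hcard
  funext x
  rw [hc x, h1]
  rfl

/-- module P1 -/
theorem p1 (Z : Subgroup G) (hZ : Subgroup.normalClosure (Z : Set G) = ⊤)
    (E : Submodule ℂ (G → ℂ)) (h0 : E ≠ ⊥) (hE : Inv E) :
    ∃ b ∈ E, b ≠ 0 ∧ (∀ g, ∑ᶠ z : Z, b (z * g) = 0) ∧ (∀ g, ∑ᶠ z : Z, b (g * z) = 0) := by
  classical
  obtain ⟨w, hw, z₀, hz₀, g₀, hwz⟩ := p1_moved Z hZ E h0 hE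
  have : Fintype Z := Fintype.ofFinite Z
  have hcZ : ((Finset.univ : Finset Z).card : ℂ) ≠ 0 := by
    rw [Nat.cast_ne_zero]
    exact Finset.card_ne_zero.2 ⟨1, Finset.mem_univ _⟩
  set c : ℂ := ((Finset.univ : Finset Z).card : ℂ) with hc
  -- the sum over `Z` is invariant
  have hinv : ∀ (f : G → ℂ) (z : G) (_ : z ∈ Z) (g : G),
      ∑ y : Z, f (y * (z * g)) = ∑ y : Z, f (y * g) := by
    intro f z hz g
    refine Fintype.sum_equiv (Equiv.mulRight (⟨z, hz⟩ : Z)) _ _ fun y => ?_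
    simp [mul_assoc]
  let a : G → ℂ := fun g => c * w g - ∑ y : Z, w (y * g)
  have haE : a ∈ E := by
    have h1 : a = c • w - ∑ y : Z, (fun g => w (y * g)) := by
      funext g
      simp [a, Finset.sum_apply]
    rw [h1]
    exact E.sub_mem (E.smul_mem _ hw) (E.sum_mem fun y _ => hE.left w hw y)
  have hal : ∀ g, ∑ z : Z, a (z * g) = 0 := by
    intro g
    have h1 : ∀ z : Z, a (z * g) = c * w (z * g) - ∑ y : Z, w (y * g) := by
      intro z
      change c * w (z * g) - ∑ y : Z, w (y * (z * g)) = _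
      rw [hinv w z z.2 g]
    rw [Finset.sum_congr rfl fun z _ => h1 z, Finset.sum_sub_distrib, Finset.sum_const,
      nsmul_eq_mul, ← Finset.mul_sum, sub_self]
  have ha0 : ∃ g, a g ≠ 0 := by
    by_contra hcon
    push Not at hcon
    apply hwz
    have h1 : ∀ g, c * w g = ∑ y : Z, w (y * g) := fun g => sub_eq_zero.1 (hcon g)
    have h2 : c * w (z₀ * g₀) = c * w g₀ := by rw [h1, h1, hinv w z₀ hz₀ g₀]
    exact mul_left_cancel₀ hcZ h2
  obtain ⟨g₁, hg₁⟩ := ha0
  let b : G → ℂ := fun k => ∑ g, a (k * g) * (starRingEnd ℂ) (a g)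
  refine ⟨b, ?_, ?_, ?_, ?_⟩
  · have h1 : b = ∑ g, (starRingEnd ℂ) (a g) • (fun k => a (k * g)) := by
      funext k
      simp [b, Finset.sum_apply, mul_comm]
    rw [h1]
    exact E.sum_mem fun g _ => E.smul_mem _ (hE.right a haE g)
  · intro hb
    have h1 : b 1 = 0 := by rw [hb]; rfl
    have h2 : b 1 = ((∑ g, ‖a g‖ ^ 2 : ℝ) : ℂ) := by
      change ∑ g, a (1 * g) * (starRingEnd ℂ) (a g) = _
      rw [Complex.ofReal_sum]
      refine Finset.sum_congr rfl fun g _ => ?_
      rw [one_mul, Complex.mul_conj, Complex.normSq_eq_norm_sq]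
    rw [h2, Complex.ofReal_eq_zero] at h1
    have h3 := (Finset.sum_eq_zero_iff_of_nonneg (fun g _ => by positivity)).1 h1 g₁
      (Finset.mem_univ _)
    exact hg₁ (norm_eq_zero.1 (pow_eq_zero_iff (two_ne_zero) |>.1 h3))
  · intro k
    rw [finsum_eq_sum_of_fintype]
    change ∑ z : Z, ∑ g, a ((z * k) * g) * (starRingEnd ℂ) (a g) = 0
    rw [Finset.sum_comm]
    refine Finset.sum_eq_zero fun g _ => ?_
    rw [← Finset.sum_mul]
    have h1 := hal (k * g)
    simp only [← mul_assoc] at h1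
    rw [h1, zero_mul]
  · intro k
    rw [finsum_eq_sum_of_fintype]
    change ∑ z : Z, ∑ g, a ((k * z) * g) * (starRingEnd ℂ) (a g) = 0
    have h1 : ∀ z : Z, ∑ g, a ((k * z) * g) * (starRingEnd ℂ) (a g) =
        ∑ g, a (k * g) * (starRingEnd ℂ) (a ((z : G)⁻¹ * g)) := by
      intro z
      refine Fintype.sum_equiv (Equiv.mulLeft (z : G)) _ _ fun g => ?_
      simp [mul_assoc]
    rw [Finset.sum_congr rfl fun z _ => h1 z, Finset.sum_comm]
    refine Finset.sum_eq_zero fun g _ => ?_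
    rw [← Finset.mul_sum, ← map_sum]
    have h2 : ∑ z : Z, a ((z : G)⁻¹ * g) = ∑ z : Z, a (z * g) :=
      Fintype.sum_equiv (Equiv.inv Z) _ _ fun z => by simp
    rw [h2, hal g, map_zero, mul_zero]

end

end Pool.Agent.SZT
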