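import Pool.Agent.SZT.Gap

/-! SZT / Spec: the twisted class of `x` solves `z = x1 φ(x2)` (helper30). -/

set_option autoImplicit false

namespace Pool.Agent.SZT

open Pool.Agent.SZQ Pool.Agent.SZQ.Inst Pool.Agent.Helper8.SUZ

section
variable {G : Type} [Group G] [Fintype G]

open Classical in
private theorem spec_orb (ψ : G →* G) (x : G) :
    (Finset.univ.image (fun k : G => k * x * (ψ k)⁻¹)).card *
      Nat.card {k : G // k * x * (ψ k)⁻¹ = x} = Fintype.card G := by
  set f : G → G := fun k => k * x * (ψ k)⁻¹ with hf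
  have hst : Nat.card {k : G // k * x * (ψ k)⁻¹ = x} =
      (Finset.univ.filter (fun k => f k = x)).card := Nat.subtype_card _ (by simp [hf])
  have h1 := Finset.card_eq_sum_card_image f (Finset.univ : Finset G)
  rw [← Finset.card_univ, h1, hst, ← smul_eq_mul, ← Finset.sum_const]
  refine Finset.sum_congr rfl fun b hb => ?_
  obtain ⟨k0, -, rfl⟩ := Finset.mem_image.1 hb
  refine Finset.card_bij' (fun a _ => k0 * a) (fun a _ => k0⁻¹ * a) ?_ ?_ ?_ ?_
  · intro a ha
    rw [Finset.mem_filter] at ha ⊢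
    refine ⟨Finset.mem_univ _, ?_⟩
    have h2 := ha.2
    simp only [hf] at h2 ⊢
    rw [map_mul, mul_inv_rev]
    calc k0 * a * x * ((ψ a)⁻¹ * (ψ k0)⁻¹) = k0 * (a * x * (ψ a)⁻¹) * (ψ k0)⁻¹ := by group
      _ = k0 * x * (ψ k0)⁻¹ := by rw [h2]
  · intro a ha
    rw [Finset.mem_filter] at ha ⊢
    refine ⟨Finset.mem_univ _, ?_⟩
    have h2 := ha.2
    simp only [hf] at h2 ⊢
    rw [map_mul, map_inv, mul_inv_rev, inv_inv]
    calc k0⁻¹ * a * x * ((ψ a)⁻¹ * ψ k0) = k0⁻¹ * (a * x * (ψ a)⁻¹) * ψ k0 := by group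
      _ = x := by rw [h2]; group
  · intro a _
    group
  · intro a _
    group

/-- module Spec -/
theorem spec (m : ℕ)
    (hdim : ∀ E : Submodule ℂ (G → ℂ), E ≠ ⊥ → Inv E → m ≤ Module.finrank ℂ E)
    (φ : G ≃* G) (x z : G) (cx cz : ℕ) (hcx : 1 ≤ cx)
    (hx : Nat.card {k : G // k * x * (φ k)⁻¹ = x} ≤ cx)
    (hz : Nat.card {k : G // k * z * (φ (φ k))⁻¹ = z} ≤ cz) (hm : (cx - 1) ^ 2 * cz < m) :
    ∃ k l : G, z = (k * x * (φ k)⁻¹) * φ (l * x * (φ l)⁻¹) := by
  classical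
  by_contra hno
  push Not at hno
  set X : Finset G := Finset.univ.image (fun k : G => k * x * (φ k)⁻¹) with hX
  set Y : Finset G := Finset.univ.image (fun k : G => k * z * (φ (φ k))⁻¹) with hY
  have hXmem : ∀ g, g ∈ X ↔ ∃ k, k * x * (φ k)⁻¹ = g := by
    intro g
    rw [hX, Finset.mem_image]
    simp
  have oX : X.card * Nat.card {k : G // k * x * (φ k)⁻¹ = x} = Fintype.card G :=
    spec_orb φ.toMonoidHom x
  have oY : Y.card * Nat.card {k : G // k * z * (φ (φ k))⁻¹ = z} = Fintype.card G :=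
    spec_orb (φ.toMonoidHom.comp φ.toMonoidHom) z
  set c := Nat.card {k : G // k * x * (φ k)⁻¹ = x} with hc
  set c' := Nat.card {k : G // k * z * (φ (φ k))⁻¹ = z} with hc'
  have hGpos : 0 < Fintype.card G := Fintype.card_pos
  have hXpos : 0 < X.card := Nat.pos_of_ne_zero (by rintro h; rw [h, zero_mul] at oX; omega)
  have hYpos : 0 < Y.card := Nat.pos_of_ne_zero (by rintro h; rw [h, zero_mul] at oY; omega)
  have hcpos : 0 < c := Nat.pos_of_ne_zero (by rintro h; rw [h, mul_zero] at oX; omega)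
  have hc'pos : 0 < c' := Nat.pos_of_ne_zero (by rintro h; rw [h, mul_zero] at oY; omega)
  -- invariance of `X`
  have hXinv : ∀ k g, k * g * (φ k)⁻¹ ∈ X ↔ g ∈ X := by
    intro k g
    rw [hXmem, hXmem]
    constructor
    · rintro ⟨l, hl⟩
      refine ⟨k⁻¹ * l, ?_⟩
      rw [map_mul, map_inv, mul_inv_rev, inv_inv]
      calc k⁻¹ * l * x * ((φ l)⁻¹ * φ k) = k⁻¹ * (l * x * (φ l)⁻¹) * φ k := by group
        _ = g := by rw [hl]; group
    · rintro ⟨l, hl⟩
      refine ⟨k * l, ?_⟩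
      rw [map_mul, mul_inv_rev, ← hl]
      group
  set K : G → G → ℝ := fun h' h => if h' * (φ h)⁻¹ ∈ X then 1 else 0 with hK
  have hr : ∀ h', ∑ h, K h' h = (X.card : ℝ) := by
    intro h'
    have h1 : ∑ h, K h' h = ∑ g : G, if g ∈ X then (1 : ℝ) else 0 := by
      refine Fintype.sum_bijective (fun h => h' * (φ h)⁻¹) ?_ _ _ fun h => rfl
      constructor
      · intro a b hab
        exact φ.injective (inv_injective (mul_left_cancel hab))
      · intro g
        refine ⟨φ.symm (g⁻¹ * h'), ?_⟩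
        simp
    rw [h1, Finset.sum_ite_mem, Finset.univ_inter, Finset.sum_const, nsmul_eq_mul, mul_one]
  have hcc : ∀ h, ∑ h', K h' h = (X.card : ℝ) := by
    intro h
    have h1 : ∑ h', K h' h = ∑ g : G, if g ∈ X then (1 : ℝ) else 0 := by
      refine Fintype.sum_bijective (fun h' => h' * (φ h)⁻¹) ?_ _ _ fun h' => rfl
      constructor
      · intro a b hab
        exact mul_right_cancel hab
      · intro g
        exact ⟨g * φ h, by simp⟩
    rw [h1, Finset.sum_ite_mem, Finset.univ_inter, Finset.sum_const, nsmul_eq_mul, mul_one]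
  have hL : ∀ k h' h, K (k * h') (k * h) = K h' h := by
    intro k h' h
    simp only [hK]
    have h1 : k * h' * (φ (k * h))⁻¹ = k * (h' * (φ h)⁻¹) * (φ k)⁻¹ := by
      rw [map_mul]
      group
    rw [h1]
    simp only [hXinv]
  have hR : ∀ k h' h, K (h' * φ k) (h * k) = K h' h := by
    intro k h' h
    simp only [hK]
    have h1 : h' * φ k * (φ (h * k))⁻¹ = h' * (φ h)⁻¹ := by
      rw [map_mul]
      group
    rw [h1]
  set N : ℝ := (Fintype.card G : ℝ) with hN
  have hN0 : 0 < N := Nat.cast_pos.2 hGpos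
  set a : ℝ := (X.card : ℝ) with ha
  have ha0 : 0 < a := Nat.cast_pos.2 hXpos
  set f : G → ℝ := fun h => (if h ∈ X then 1 else 0) - a / N with hf
  have hX1 : ∑ h : G, (if h ∈ X then (1 : ℝ) else 0) = a := by
    rw [Finset.sum_ite_mem, Finset.univ_inter, Finset.sum_const, nsmul_eq_mul, mul_one]
  have hf0 : ∑ h, f h = 0 := by
    simp only [hf]
    rw [Finset.sum_sub_distrib, hX1, Finset.sum_const, Finset.card_univ, nsmul_eq_mul,
      mul_div_cancel₀ _ hN0.ne', sub_self]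
  have hf2 : ∑ h, f h ^ 2 = a - a ^ 2 / N := by
    have h1 : ∀ h, f h ^ 2 = (1 - 2 * (a / N)) * (if h ∈ X then (1 : ℝ) else 0) + (a / N) ^ 2 := by
      intro h
      simp only [hf]
      split_ifs <;> ring
    rw [Finset.sum_congr rfl fun h _ => h1 h, Finset.sum_add_distrib, ← Finset.mul_sum, hX1,
      Finset.sum_const, Finset.card_univ, nsmul_eq_mul]
    field_simp
    ring
  have hK2 : ∑ h', ∑ h, K h' h ^ 2 = N * a := by
    have h1 : ∀ h' h, K h' h ^ 2 = K h' h := by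
      intro h' h
      simp only [hK]
      split_ifs <;> norm_num
    simp only [h1, hr]
    rw [Finset.sum_const, Finset.card_univ, nsmul_eq_mul]
  have hT : ∀ y ∈ Y, ∑ h, K y h * f h = -(a ^ 2 / N) := by
    intro y hy
    obtain ⟨k, -, hk⟩ := Finset.mem_image.1 hy
    have h1 : ∀ h, K y h * f h = -(a / N) * K y h := by
      intro h
      by_cases h2 : h ∈ X
      · have h3 : K y h = 0 := by
          simp only [hK]
          rw [if_neg]
          intro h4
          -- `y = x₁ φ h`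
          have h5 : k⁻¹ * (y * (φ h)⁻¹) * (φ k⁻¹)⁻¹ ∈ X := (hXinv k⁻¹ _).2 h4
          have h6 : k⁻¹ * h * (φ k⁻¹)⁻¹ ∈ X := (hXinv k⁻¹ _).2 h2
          obtain ⟨l1, hl1⟩ := (hXmem _).1 h5
          obtain ⟨l2, hl2⟩ := (hXmem _).1 h6
          apply hno l1 l2
          rw [hl1, hl2]
          simp only [map_mul, map_inv, inv_inv]
          rw [← hk]
          group
        rw [h3]
        ring
      · simp only [hf]
        rw [if_neg h2]
        ring
    rw [Finset.sum_congr rfl fun h _ => h1 h, ← Finset.mul_sum, hr]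
    ring
  have hgap := gap m hdim φ K a hr hcc hL hR f hf0
  rw [hK2, hf2] at hgap
  have hlow : (Y.card : ℝ) * (a ^ 2 / N) ^ 2 ≤ ∑ h', (∑ h, K h' h * f h) ^ 2 := by
    calc (Y.card : ℝ) * (a ^ 2 / N) ^ 2 = ∑ y ∈ Y, (∑ h, K y h * f h) ^ 2 := by
          rw [Finset.sum_congr rfl fun y hy => by rw [hT y hy], Finset.sum_const, nsmul_eq_mul,
            neg_sq]
      _ ≤ ∑ h', (∑ h, K h' h * f h) ^ 2 :=
          Finset.sum_le_sum_of_subset_of_nonneg (Finset.subset_univ _) fun _ _ _ => sq_nonneg _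
  have h1 : (m : ℝ) * ((Y.card : ℝ) * (a ^ 2 / N) ^ 2) ≤ (N * a - a ^ 2) * (a - a ^ 2 / N) :=
    (mul_le_mul_of_nonneg_left hlow (Nat.cast_nonneg m)).trans hgap
  have hcR : (0 : ℝ) < c := by exact_mod_cast hcpos
  have hc'R : (0 : ℝ) < c' := by exact_mod_cast hc'pos
  have hb0 : (0 : ℝ) < Y.card := by exact_mod_cast hYpos
  have e1 : a * c = N := by
    rw [ha, hN]
    exact_mod_cast oX
  have e2 : (Y.card : ℝ) * c' = N := by
    rw [hN]
    exact_mod_cast oY
  have e3 : N = a * c := e1.symm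
  have e4 : (Y.card : ℝ) = a * c / c' := by
    rw [e1, eq_div_iff hc'R.ne']
    exact e2
  rw [e4, e3] at h1
  have e5 : (m : ℝ) ≤ (c - 1) ^ 2 * c' := by
    have e6 : (m : ℝ) * (a * c / c' * (a ^ 2 / (a * c)) ^ 2) = (m : ℝ) * (a ^ 3 / (c * c')) := by
      field_simp
    have e7 : (a * c * a - a ^ 2) * (a - a ^ 2 / (a * c)) = a ^ 3 * ((c - 1) ^ 2 / c) := by
      field_simp
    rw [e6, e7] at h1
    have ha3 : 0 < a ^ 3 := by positivity
    have e8 : (m : ℝ) * (a ^ 3 / (c * c')) = a ^ 3 * (m / (c * c')) := by ring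
    rw [e8] at h1
    have e9 : (m : ℝ) / (c * c') ≤ (c - 1) ^ 2 / c := le_of_mul_le_mul_left h1 ha3
    rw [div_le_div_iff₀ (by positivity) hcR] at e9
    have e10 : (m : ℝ) * c ≤ ((c - 1) ^ 2 * c') * c := by nlinarith
    exact le_of_mul_le_mul_right e10 hcR
  have e11 : (m : ℝ) ≤ ((cx : ℝ) - 1) ^ 2 * cz := by
    have h2 : (c : ℝ) ≤ cx := by exact_mod_cast hx
    have h3 : (c' : ℝ) ≤ cz := by exact_mod_cast hz
    have h4 : (1 : ℝ) ≤ c := by exact_mod_cast hcpos
    have h5 : ((c : ℝ) - 1) ^ 2 ≤ ((cx : ℝ) - 1) ^ 2 := by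
      apply pow_le_pow_left₀ <;> linarith
    calc (m : ℝ) ≤ (c - 1) ^ 2 * c' := e5
      _ ≤ ((cx : ℝ) - 1) ^ 2 * cz := mul_le_mul h5 h3 hc'R.le (sq_nonneg _)
  have e12 : (((cx - 1) ^ 2 * cz : ℕ) : ℝ) = ((cx : ℝ) - 1) ^ 2 * cz := by
    push_cast [Nat.cast_sub hcx]
    ring
  rw [← e12] at e11
  have e13 : m ≤ (cx - 1) ^ 2 * cz := by exact_mod_cast e11
  omega

end

end Pool.Agent.SZT
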